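import Pool.Agent.R818.Functors.Lim

/-!
# Functors on compact Hausdorff spaces: the notions of Shchepin and of skeletality

All notions are for covariant functors from the category of compact Hausdorff spaces (in `Type`) to
itself.
-/

set_option autoImplicit false

open CategoryTheory Topology Set

namespace Pool.Agent.R818.Functors

/-- `F` preserves injectivity of maps. -/
def Monomorphic (F : CFun) : Prop :=
  ∀ (X Y : CompHaus.{0}) (f : X ⟶ Y), Function.Injective f → Function.Injective (F.map f)

/-- `F` preserves surjectivity of maps. -/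
def Epimorphic (F : CFun) : Prop :=
  ∀ (X Y : CompHaus.{0}) (f : X ⟶ Y), Function.Surjective f → Function.Surjective (F.map f)

/-- A closed subset of a compact Hausdorff space, as a compact Hausdorff space. -/
def sub (X : CompHaus.{0}) (A : Set X) (hA : IsClosed A) : CompHaus.{0} :=
  @CompHaus.of A _ (isCompact_iff_compactSpace.1 hA.isCompact) _

/-- The inclusion of a closed subset. -/
def incl (X : CompHaus.{0}) (A : Set X) (hA : IsClosed A) : sub X A hA ⟶ X :=
  haveI : CompactSpace A := isCompact_iff_compactSpace.1 hA.isCompact
  CompHausLike.ofHom _ ⟨Subtype.val, continuous_subtype_val⟩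

/-- The subset `F A` of `F X`, for a closed subset `A` of `X`: the range of `F` applied to the
inclusion map. -/
def FSet (F : CFun) (X : CompHaus.{0}) (A : Set X) (hA : IsClosed A) : Set (F.obj X) :=
  Set.range (F.map (incl X A hA))

/-- The weight of a topological space: the least cardinality of a base. -/
noncomputable def weight (X : Type) [TopologicalSpace X] : Cardinal.{0} :=
  sInf {κ | ∃ B : Set (Set X), TopologicalSpace.IsTopologicalBasis B ∧ Cardinal.mk B = κ}

theorem continuous_hom {X Y : CompHaus.{0}} (f : X ⟶ Y) : Continuous f :=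
  (ConcreteCategory.hom f).continuous

/-- A commutative square of compact Hausdorff spaces. -/
structure Square where
  /-- the upper left space -/
  Xt : CompHaus.{0}
  /-- the upper right space -/
  Yt : CompHaus.{0}
  /-- the lower left space -/
  X : CompHaus.{0}
  /-- the lower right space -/
  Y : CompHaus.{0}
  /-- the upper map -/
  ft : Xt ⟶ Yt
  /-- the lower map -/
  f : X ⟶ Y
  /-- the left map -/
  pX : Xt ⟶ X
  /-- the right map -/
  pY : Yt ⟶ Y
  /-- the square commutes -/
  comm : ft ≫ pY = pX ≫ f

/-- The image of a commutative square under a functor. -/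
def Square.map (D : Square) (F : CFun) : Square where
  Xt := F.obj D.Xt
  Yt := F.obj D.Yt
  X := F.obj D.X
  Y := F.obj D.Y
  ft := F.map D.ft
  f := F.map D.f
  pX := F.map D.pX
  pY := F.map D.pY
  comm := by rw [← F.map_comp, D.comm, F.map_comp]

/-- A square is bicommutative if `ft (pX ⁻¹ x) = pY ⁻¹ (f x)` for all `x` in `X`. -/
def Square.Bicommutative (D : Square) : Prop :=
  ∀ x : D.X, D.ft '' (D.pX ⁻¹' {x}) = D.pY ⁻¹' {D.f x}

/-- A square is skeletal if for every `x` in `X` and neighbourhood `U` of `x` there is a nonempty
open subset `V` of `Y` with `V ⊆ f (U)` and `pY ⁻¹ (V) ⊆ ft (pX ⁻¹ (U))`. -/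
def Square.Skeletal (D : Square) : Prop :=
  ∀ x : D.X, ∀ U ∈ 𝓝 x, ∃ V : Set D.Y, IsOpen V ∧ V.Nonempty ∧ V ⊆ D.f '' U ∧
    D.pY ⁻¹' V ⊆ D.ft '' (D.pX ⁻¹' U)

/-- All four maps are surjective. -/
def Square.Surjective (D : Square) : Prop :=
  Function.Surjective D.ft ∧ Function.Surjective D.f ∧ Function.Surjective D.pX ∧
    Function.Surjective D.pY

/-- All four spaces are finite. -/
def Square.AllFinite (D : Square) : Prop :=
  Finite D.Xt ∧ Finite D.Yt ∧ Finite D.X ∧ Finite D.Y

/-- A map is skeletal if preimages of nowhere dense sets are nowhere dense. -/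
def SkeletalMap {X Y : Type} [TopologicalSpace X] [TopologicalSpace Y] (f : X → Y) : Prop :=
  ∀ A : Set Y, IsNowhereDense A → IsNowhereDense (f ⁻¹' A)

/-- `F` is open: it sends open surjections to open maps. -/
def OpenFunctor (F : CFun) : Prop :=
  ∀ (X Y : CompHaus.{0}) (f : X ⟶ Y), Function.Surjective f → IsOpenMap f → IsOpenMap (F.map f)

/-- `F` is skeletal: it sends open surjections to skeletal maps. -/
def SkeletalFunctor (F : CFun) : Prop :=
  ∀ (X Y : CompHaus.{0}) (f : X ⟶ Y), Function.Surjective f → IsOpenMap f →
    SkeletalMap (F.map f)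

/-- `F` is finitary: `F X` is finite for finite `X`. -/
def Finitary (F : CFun) : Prop := ∀ X : CompHaus.{0}, Finite X → Finite (F.obj X)

/-- `F_n (X) = F X` for all `X`: every element of `F X` is of the form `F ξ (b)` for some map `ξ`
from the discrete space with `n` points to `X`. -/
def DegreeLE (F : CFun) (n : ℕ) : Prop :=
  ∀ (X : CompHaus.{0}) (a : F.obj X), ∃ ξ : CompHaus.of (Fin n) ⟶ X, a ∈ Set.range (F.map ξ)

/-- `F` is finitely bicommutative. -/
def FinitelyBicommutative (F : CFun) : Prop :=
  ∀ D : Square, D.AllFinite → D.Surjective → D.Bicommutative → (D.map F).Bicommutative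

/-- `F` is square-skeletal. -/
def SquareSkeletal (F : CFun) : Prop :=
  ∀ D : Square, D.Surjective → D.Skeletal → (D.map F).Skeletal

/-- `F` is finitely square-skeletal. -/
def FinitelySquareSkeletal (F : CFun) : Prop :=
  ∀ D : Square, D.AllFinite → D.Surjective → D.Skeletal → (D.map F).Skeletal

/-- Normal functors in the sense of Shchepin. Preservation of preimages is required both for
preimages of closed sets and in the form of squares. -/
structure IsNormal (F : CFun) : Prop where
  /-- injective maps go to injective maps -/
  mono : Monomorphic F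
  /-- surjective maps go to surjective maps -/
  epi : Epimorphic F
  /-- `F` commutes with limits of inverse spectra -/
  lim : CommutesWithLimits F
  /-- intersections of closed sets are preserved -/
  inter : ∀ (X : CompHaus.{0}) (ι : Type) (A : ι → Set X) (hA : ∀ i, IsClosed (A i)),
    FSet F X (⋂ i, A i) (isClosed_iInter hA) = ⋂ i, FSet F X (A i) (hA i)
  /-- the empty space is preserved -/
  empty : ∀ X : CompHaus.{0}, IsEmpty X → IsEmpty (F.obj X)
  /-- one-point spaces are preserved -/
  point : ∀ X : CompHaus.{0}, Nonempty X ∧ Subsingleton X →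
    Nonempty (F.obj X) ∧ Subsingleton (F.obj X)
  /-- the weight of infinite spaces is preserved -/
  weight : ∀ X : CompHaus.{0}, Infinite X → weight (F.obj X) = weight X
  /-- preimages of closed sets are preserved -/
  preimage : ∀ (X Y : CompHaus.{0}) (f : X ⟶ Y) (Z : Set Y) (hZ : IsClosed Z),
    (F.map f) ⁻¹' (FSet F Y Z hZ) = FSet F X (f ⁻¹' Z) (hZ.preimage (continuous_hom f))
  /-- preimages are preserved, for squares -/
  preimage_square : ∀ D : Square, Function.Injective D.f → Function.Injective D.ft →
    D.Bicommutative → (D.map F).Bicommutative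

end Pool.Agent.R818.Functors
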