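import Pool.Agent.R818.Functors.OnePre

/-!
# A functor which preserves finite 1-preimages but not 1-preimages

The functor is a quotient of `X × X × exp X`.
-/

set_option autoImplicit false

open CategoryTheory Topology Set TopologicalSpace

namespace Pool.Agent.R818.Functors.Hyper

/-- connected compact subsets form a closed set -/
theorem isClosed_preconnected (X : Type) [TopologicalSpace X] [CompactSpace X] [T2Space X] :
    IsClosed {A : NonemptyCompacts X | IsPreconnected (A : Set X)} := by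
  rw [← isOpen_compl_iff, isOpen_iff_mem_nhds]
  intro A hA
  have hA' : ¬ IsPreconnected (A : Set X) := hA
  rw [isPreconnected_iff_subset_of_disjoint_closed] at hA'
  push Not at hA'
  obtain ⟨u, v, hu, hv, huv, hd, hnu, hnv⟩ := hA'
  have hAc : IsClosed (A : Set X) := A.isCompact.isClosed
  have hdis : Disjoint ((A : Set X) ∩ u) ((A : Set X) ∩ v) := by
    rw [Set.disjoint_left]
    rintro x ⟨hx, hxu⟩ ⟨-, hxv⟩
    have : x ∈ (A : Set X) ∩ (u ∩ v) := ⟨hx, hxu, hxv⟩
    rw [hd] at this
    exact this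
  obtain ⟨U, V, hU, hV, hAU, hAV, hUV⟩ := normal_separation (hAc.inter hu) (hAc.inter hv) hdis
  have h1 : IsOpen {B : NonemptyCompacts X | (B : Set X) ⊆ U ∪ V} :=
    NonemptyCompacts.isOpen_subsets_of_isOpen (hU.union hV)
  have h2 : IsOpen {B : NonemptyCompacts X | ((B : Set X) ∩ U).Nonempty} :=
    NonemptyCompacts.isOpen_inter_nonempty_of_isOpen hU
  have h3 : IsOpen {B : NonemptyCompacts X | ((B : Set X) ∩ V).Nonempty} :=
    NonemptyCompacts.isOpen_inter_nonempty_of_isOpen hV
  refine Filter.mem_of_superset (((h1.inter h2).inter h3).mem_nhds ⟨⟨?_, ?_⟩, ?_⟩) ?_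
  · intro x hx
    rcases huv hx with h | h
    · exact Or.inl (hAU ⟨hx, h⟩)
    · exact Or.inr (hAV ⟨hx, h⟩)
  · obtain ⟨x, hx, hxv⟩ := not_subset.1 hnv
    exact ⟨x, hx, hAU ⟨hx, (huv hx).resolve_right hxv⟩⟩
  · obtain ⟨x, hx, hxu⟩ := not_subset.1 hnu
    exact ⟨x, hx, hAV ⟨hx, (huv hx).resolve_left hxu⟩⟩
  · rintro B ⟨⟨hB1, hB2⟩, hB3⟩ hB
    obtain ⟨x, hx, hxU, hxV⟩ := hB U V hU hV hB1 hB2 hB3
    exact Set.disjoint_left.1 hUV hxU hxV

theorem isClosed_subsingleton (X : Type) [TopologicalSpace X] [CompactSpace X] [T2Space X] :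
    IsClosed {A : NonemptyCompacts X | (A : Set X).Subsingleton} := by
  have h1 := (NonemptyCompacts.isClosedEmbedding_singleton (α := X)).isClosed_range
  convert h1 using 1
  ext A
  constructor
  · intro hA
    obtain ⟨x, hx⟩ := A.nonempty
    refine ⟨x, ?_⟩
    apply NonemptyCompacts.ext
    ext y
    simp only [NonemptyCompacts.coe_singleton, mem_singleton_iff, SetLike.mem_coe]
    constructor
    · rintro rfl
      exact hx
    · intro hy
      exact hA hy hx
  · rintro ⟨x, rfl⟩
    change (({x} : NonemptyCompacts X) : Set X).Subsingleton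
    rw [NonemptyCompacts.coe_singleton]
    exact subsingleton_singleton

/-- the type -/
abbrev V (X : Type) [TopologicalSpace X] : Type := (X × X) × NonemptyCompacts X

/-- the map -/
def vmap {X Y : Type} [TopologicalSpace X] [TopologicalSpace Y] (f : X → Y) (hf : Continuous f) :
    V X → V Y := Prod.map (Prod.map f f) (NonemptyCompacts.map f hf)

lemma continuous_vmap {X Y : Type} [TopologicalSpace X] [TopologicalSpace Y] {f : X → Y}
    (hf : Continuous f) : Continuous (vmap f hf) :=
  (hf.prodMap hf).prodMap hf.nonemptyCompacts_map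

/-- the functor `X × X × exp X` -/
def G : CFun where
  obj X := CompHaus.of (V X)
  map f := CompHausLike.ofHom _ ⟨vmap f (continuous_hom f), continuous_vmap (continuous_hom f)⟩
  map_id X := by
    refine ConcreteCategory.hom_ext _ _ (fun a => ?_)
    change (Prod.map (Prod.map id id) (NonemptyCompacts.map id continuous_id)) a = a
    obtain ⟨⟨x, y⟩, A⟩ := a
    simp [NonemptyCompacts.map_id]
  map_comp {X Y Z} f g := by
    refine ConcreteCategory.hom_ext _ _ (fun a => ?_)
    obtain ⟨⟨x, y⟩, A⟩ := a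
    have h := NonemptyCompacts.map_comp (g : Y → Z) (f : X → Y) (continuous_hom g)
      (continuous_hom f) A
    exact Prod.ext rfl h

/-- the relation -/
def rel (X : Type) [TopologicalSpace X] : Setoid (V X) where
  r p q := p.2 = q.2 ∧ (p.1 = q.1 ∨ (p.2 : Set X).Subsingleton ∨
    (p.1.1 = p.1.2 ∧ q.1.1 = q.1.2 ∧ IsPreconnected (p.2 : Set X)))
  iseqv := by
    refine ⟨fun p => ⟨rfl, Or.inl rfl⟩, ?_, ?_⟩
    · rintro p q ⟨h1, h2⟩
      refine ⟨h1.symm, ?_⟩
      rw [← h1]
      rcases h2 with h2 | h2 | ⟨h2, h3, h4⟩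
      · exact Or.inl h2.symm
      · exact Or.inr (Or.inl h2)
      · exact Or.inr (Or.inr ⟨h3, h2, h4⟩)
    · rintro p q r ⟨h1, h2⟩ ⟨h3, h4⟩
      refine ⟨h1.trans h3, ?_⟩
      rw [← h1] at h4
      rcases h2 with h2 | h2 | ⟨h2, h2', h2''⟩
      · rcases h4 with h4 | h4 | ⟨h4, h4', h4''⟩
        · exact Or.inl (h2.trans h4)
        · exact Or.inr (Or.inl h4)
        · rw [← h2] at h4
          exact Or.inr (Or.inr ⟨h4, h4', h4''⟩)
      · exact Or.inr (Or.inl h2)
      · rcases h4 with h4 | h4 | ⟨h4, h4', h4''⟩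
        · rw [h4] at h2'
          exact Or.inr (Or.inr ⟨h2, h2', h2''⟩)
        · exact Or.inr (Or.inl h4)
        · exact Or.inr (Or.inr ⟨h2, h4', h4''⟩)

/-- the closed functorial relation -/
def R : Rel G where
  r X := rel X
  closed X := by
    change IsClosed {p : V X × V X | p.1.2 = p.2.2 ∧ (p.1.1 = p.2.1 ∨
      (p.1.2 : Set X).Subsingleton ∨
      (p.1.1.1 = p.1.1.2 ∧ p.2.1.1 = p.2.1.2 ∧ IsPreconnected (p.1.2 : Set X)))}
    have h1 : IsClosed {p : V X × V X | p.1.2 = p.2.2} := isClosed_eq (by fun_prop) (by fun_prop)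
    have h2 : IsClosed {p : V X × V X | p.1.1 = p.2.1} := isClosed_eq (by fun_prop) (by fun_prop)
    have h3 : IsClosed {p : V X × V X | (p.1.2 : Set X).Subsingleton} :=
      (isClosed_subsingleton X).preimage (f := fun p : V X × V X => p.1.2) (by fun_prop)
    have h4 : IsClosed {p : V X × V X | p.1.1.1 = p.1.1.2} :=
      isClosed_eq (by fun_prop) (by fun_prop)
    have h5 : IsClosed {p : V X × V X | p.2.1.1 = p.2.1.2} :=
      isClosed_eq (by fun_prop) (by fun_prop)
    have h6 : IsClosed {p : V X × V X | IsPreconnected (p.1.2 : Set X)} :=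
      (isClosed_preconnected X).preimage (f := fun p : V X × V X => p.1.2) (by fun_prop)
    exact h1.inter (h2.union (h3.union (h4.inter (h5.inter h6))))
  map {X Y} f a b h := by
    obtain ⟨h1, h2⟩ := h
    refine ⟨congrArg (NonemptyCompacts.map f (continuous_hom f)) h1, ?_⟩
    rcases h2 with h2 | h2 | ⟨h2, h3, h4⟩
    · exact Or.inl (congrArg (Prod.map f f) h2)
    · exact Or.inr (Or.inl (h2.image f))
    · refine Or.inr (Or.inr ⟨congrArg f h2, congrArg f h3, ?_⟩)
      exact h4.image f (continuous_hom f).continuousOn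

/-- the functor -/
def F : CFun := R.quot

/-- the elements -/
def el (X : CompHaus.{0}) (a : V X) : F.obj X := R.proj X a

lemma el_surj (X : CompHaus.{0}) (a : F.obj X) : ∃ w, a = el X w := by
  obtain ⟨w, h⟩ := R.proj_surjective X a
  exact ⟨w, h.symm⟩

lemma el_eq {X : CompHaus.{0}} {p q : V X} :
    el X p = el X q ↔ p.2 = q.2 ∧ (p.1 = q.1 ∨ (p.2 : Set X).Subsingleton ∨
    (p.1.1 = p.1.2 ∧ q.1.1 = q.1.2 ∧ IsPreconnected (p.2 : Set X))) := R.proj_eq

lemma map_el {X Y : CompHaus.{0}} (f : X ⟶ Y) (w : V X) :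
    F.map f (el X w) = el Y (vmap f (continuous_hom f) w) := rfl

lemma vmap_set {X Y : CompHaus.{0}} (f : X ⟶ Y) (w : V X) :
    ((vmap f (continuous_hom f) w).2 : Set Y) = f '' (w.2 : Set X) := rfl

theorem mono : Monomorphic F := by
  intro X Y f hf p q h
  obtain ⟨w, rfl⟩ := el_surj X p
  obtain ⟨w', rfl⟩ := el_surj X q
  rw [map_el, map_el, el_eq] at h
  rw [el_eq]
  obtain ⟨h1, h2⟩ := h
  refine ⟨NonemptyCompacts.map_injective (continuous_hom f) hf h1, ?_⟩
  rcases h2 with h2 | h2 | ⟨h2, h3, h4⟩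
  · exact Or.inl ((hf.prodMap hf) h2)
  · refine Or.inr (Or.inl ?_)
    rw [vmap_set] at h2
    exact fun x hx y hy => hf (h2 ⟨x, hx, rfl⟩ ⟨y, hy, rfl⟩)
  · refine Or.inr (Or.inr ⟨hf h2, hf h3, ?_⟩)
    rw [vmap_set] at h4
    have hi : IsInducing f := ((continuous_hom f).isClosedEmbedding hf).isInducing
    exact hi.isPreconnected_image.1 h4

theorem epi : Epimorphic F := by
  intro X Y f hf p
  obtain ⟨⟨⟨y, y'⟩, B⟩, rfl⟩ := el_surj Y p
  obtain ⟨x, rfl⟩ := hf y
  obtain ⟨x', rfl⟩ := hf y'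
  have hc : IsCompact (f ⁻¹' (B : Set Y)) :=
    (B.isCompact.isClosed.preimage (continuous_hom f)).isCompact
  have hne : (f ⁻¹' (B : Set Y)).Nonempty := B.nonempty.preimage hf
  let A : NonemptyCompacts X := ⟨⟨f ⁻¹' (B : Set Y), hc⟩, hne⟩
  refine ⟨el X ((x, x'), A), ?_⟩
  rw [map_el]
  congr 1
  refine Prod.ext rfl ?_
  apply NonemptyCompacts.ext
  exact image_preimage_eq _ hf

/-- directed families of closed conditions -/
theorem exists_leg_disjoint {J : Type} [Preorder J] [Nonempty J] [IsDirectedOrder J]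
    {S : Jᵒᵖ ⥤ CompHaus.{0}} {c : Limits.Cone S} (hc : Nonempty (Limits.IsLimit c))
    {A B : Set c.pt} (hA : IsClosed A) (hB : IsClosed B) (hAB : Disjoint A B) :
    ∃ j, Disjoint (leg c j '' A) (leg c j '' B) := by
  by_contra hcon
  push Not at hcon
  let K : J → Set (c.pt × c.pt) := fun j =>
    (A ×ˢ B) ∩ {p | leg c (Opposite.op j) p.1 = leg c (Opposite.op j) p.2}
  have hK : ∀ j, IsClosed (K j) := by
    intro j
    apply (hA.prod hB).inter
    exact isClosed_eq ((continuous_hom (leg c (Opposite.op j))).comp continuous_fst)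
      ((continuous_hom (leg c (Opposite.op j))).comp continuous_snd)
  have hne : ∀ j, (K j).Nonempty := by
    intro j
    obtain ⟨z, ⟨x, hx, hxz⟩, ⟨y, hy, hyz⟩⟩ := Set.not_disjoint_iff.1 (hcon (Opposite.op j))
    exact ⟨(x, y), ⟨hx, hy⟩, hxz.trans hyz.symm⟩
  have hmono : ∀ i j : J, i ≤ j → K j ⊆ K i := by
    rintro i j hij p ⟨hp, hp'⟩
    refine ⟨hp, ?_⟩
    have h1 : leg c (Opposite.op j) p.1 = leg c (Opposite.op j) p.2 := hp'
    change leg c (Opposite.op i) p.1 = leg c (Opposite.op i) p.2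
    rw [← leg_apply c (homOfLE hij).op p.1, ← leg_apply c (homOfLE hij).op p.2, h1]
  have hdir : Directed (fun a b => b ⊆ a) K := by
    intro i j
    obtain ⟨k, hik, hjk⟩ := exists_ge_ge i j
    exact ⟨k, hmono i k hik, hmono j k hjk⟩
  obtain ⟨p, hp⟩ := IsCompact.nonempty_iInter_of_directed_nonempty_isCompact_isClosed K hdir hne
    (fun j => (hK j).isCompact) hK
  rw [mem_iInter] at hp
  have h1 : p.1 = p.2 := ext_of_isLimit hc fun j => (hp j.unop).2
  obtain ⟨j0⟩ := (inferInstance : Nonempty J)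
  have h2 := (hp j0).1
  rw [← Prod.mk.eta (p := p), h1] at h2
  exact Set.disjoint_left.1 hAB (show p.2 ∈ A from h2.1) h2.2

/-- compact sets are determined by their images -/
theorem subset_of_legs {J : Type} [Preorder J] [Nonempty J] [IsDirectedOrder J]
    {S : Jᵒᵖ ⥤ CompHaus.{0}} {c : Limits.Cone S} (hc : Nonempty (Limits.IsLimit c))
    {A B : Set c.pt} (hB : IsClosed B)
    (h : ∀ j, leg c j '' A ⊆ leg c j '' B) : A ⊆ B := by
  intro x hx
  by_contra hxB
  obtain ⟨j, hj⟩ := exists_leg_disjoint hc (isClosed_singleton (x := x)) hB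
    (disjoint_singleton_left.2 hxB)
  rw [image_singleton, disjoint_singleton_left] at hj
  exact hj (h j ⟨x, hx, rfl⟩)

theorem G_commutes : CommutesWithLimits G := by
  rw [commutesWithLimits_iff]
  intro J _ _ _ S c hc s hs
  have hs' : ∀ i j (f : i ⟶ j), S.map f (s i).1.1 = (s j).1.1 ∧ S.map f (s i).1.2 = (s j).1.2 ∧
      S.map f '' ((s i).2 : Set (S.obj i)) = ((s j).2 : Set (S.obj j)) := by
    intro i j f
    have := hs i j f
    exact ⟨congrArg (fun w : V (S.obj j) => w.1.1) this,
      congrArg (fun w : V (S.obj j) => w.1.2) this,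
      congrArg (fun w : V (S.obj j) => (w.2 : Set (S.obj j))) this⟩
  obtain ⟨x1, h1, u1⟩ := thread_of_isLimit hc (fun j => (s j).1.1) (fun i j f => (hs' i j f).1)
  obtain ⟨x2, h2, u2⟩ := thread_of_isLimit hc (fun j => (s j).1.2) (fun i j f => (hs' i j f).2.1)
  let A : Set c.pt := {x | ∀ j, leg c j x ∈ ((s j).2 : Set (S.obj j))}
  have hA : IsClosed A := by
    have : A = ⋂ j, leg c j ⁻¹' ((s j).2 : Set (S.obj j)) := by
      ext x
      simp [A]
    rw [this]
    exact isClosed_iInter fun j => (s j).2.isCompact.isClosed.preimage (continuous_hom (leg c j))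
  have hAim : ∀ j, leg c j '' A = ((s j).2 : Set (S.obj j)) := by
    intro j
    apply Subset.antisymm
    · rintro _ ⟨x, hx, rfl⟩
      exact hx j
    · intro a ha
      let T : Jᵒᵖ ⥤ TopCat.{0} :=
        { obj := fun k => TopCat.of {b : S.obj k // b ∈ ((s k).2 : Set (S.obj k)) ∧
            ∀ f : k ⟶ j, S.map f b = a}
          map := fun {i k} g => TopCat.ofHom
            ⟨fun b => ⟨S.map g b.1, by
              refine ⟨?_, fun f => ?_⟩
              · rw [← (hs' i k g).2.2]
                exact ⟨b.1, b.2.1, rfl⟩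
              · rw [← ConcreteCategory.comp_apply, ← S.map_comp]
                exact b.2.2 _⟩, by
              apply Continuous.subtype_mk
              exact (continuous_hom (S.map g)).comp continuous_subtype_val⟩
          map_id := by
            intro k
            ext b
            change S.map (𝟙 k) b.1 = b.1
            rw [S.map_id]
            rfl
          map_comp := by
            intro i k l f g
            ext b
            change S.map (f ≫ g) b.1 = S.map g (S.map f b.1)
            rw [S.map_comp]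
            rfl }
      have hne : ∀ k, Nonempty (T.obj k) := by
        intro k
        by_cases hk : Nonempty (k ⟶ j)
        · obtain ⟨f⟩ := hk
          have ha' := ha
          rw [← (hs' k j f).2.2] at ha'
          obtain ⟨b, hb, hba⟩ := ha'
          exact ⟨⟨b, hb, fun f' => by rw [Subsingleton.elim f' f]; exact hba⟩⟩
        · obtain ⟨b, hb⟩ := (s k).2.nonempty
          exact ⟨⟨b, hb, fun f => absurd ⟨f⟩ hk⟩⟩
      have hcomp : ∀ k, CompactSpace (T.obj k) := by
        intro k
        have : IsClosed {b : S.obj k | b ∈ ((s k).2 : Set (S.obj k)) ∧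
            ∀ f : k ⟶ j, S.map f b = a} := by
          apply (s k).2.isCompact.isClosed.inter
          have h5 : {b : S.obj k | ∀ f : k ⟶ j, S.map f b = a} =
              ⋂ f : k ⟶ j, S.map f ⁻¹' {a} := by
            ext b
            simp
          change IsClosed {b : S.obj k | ∀ f : k ⟶ j, S.map f b = a}
          rw [h5]
          have hT1 : T1Space (S.obj j) := @T2Space.t1Space _ _ (S.obj j).is_hausdorff
          have h6 : IsClosed ({a} : Set (S.obj j)) := @isClosed_singleton _ _ hT1 a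
          exact isClosed_iInter fun f => h6.preimage (continuous_hom (S.map f))
        exact isCompact_iff_compactSpace.1 this.isCompact
      have ht2 : ∀ k, T2Space (T.obj k) := by
        intro k
        change T2Space {b : S.obj k // b ∈ ((s k).2 : Set (S.obj k)) ∧
            ∀ f : k ⟶ j, S.map f b = a}
        infer_instance
      obtain ⟨t⟩ := TopCat.nonempty_limitCone_of_compact_t2_cofiltered_system T
      obtain ⟨x, hx, -⟩ := thread_of_isLimit hc (fun k => (t.1 k).1)
        (fun i k f => congrArg Subtype.val (t.2 f))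
      refine ⟨x, fun k => ?_, ?_⟩
      · rw [hx k]
        exact (t.1 k).2.1
      · rw [hx j]
        have := (t.1 j).2.2 (𝟙 j)
        rw [S.map_id] at this
        exact this
  have hAne : A.Nonempty := by
    obtain ⟨j0⟩ := (inferInstance : Nonempty Jᵒᵖ)
    obtain ⟨b, hb⟩ := (s j0).2.nonempty
    rw [← hAim j0] at hb
    obtain ⟨x, hx, -⟩ := hb
    exact ⟨x, hx⟩
  let A' : NonemptyCompacts c.pt := ⟨⟨A, hA.isCompact⟩, hAne⟩
  refine ⟨((x1, x2), A'), ?_, ?_⟩
  · intro j
    change vmap (leg c j) (continuous_hom (leg c j)) ((x1, x2), A') = s j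
    refine Prod.ext (Prod.ext (h1 j) (h2 j)) ?_
    apply NonemptyCompacts.ext
    exact hAim j
  · intro y hy
    have hy' : ∀ j, leg c j y.1.1 = (s j).1.1 ∧ leg c j y.1.2 = (s j).1.2 ∧
        leg c j '' (y.2 : Set c.pt) = ((s j).2 : Set (S.obj j)) := by
      intro j
      have := hy j
      exact ⟨congrArg (fun w : V (S.obj j) => w.1.1) this,
        congrArg (fun w : V (S.obj j) => w.1.2) this,
        congrArg (fun w : V (S.obj j) => (w.2 : Set (S.obj j))) this⟩
    change ((y.1.1, y.1.2), y.2) = ((x1, x2), A')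
    refine Prod.ext (Prod.ext (u1 _ fun j => (hy' j).1) (u2 _ fun j => (hy' j).2.1)) ?_
    apply NonemptyCompacts.ext
    apply Subset.antisymm
    · exact subset_of_legs hc hA fun j => by
        rw [(hy' j).2.2]
        exact (hAim j).symm.subset
    · exact subset_of_legs hc y.2.isCompact.isClosed fun j => by
        rw [(hy' j).2.2]
        exact (hAim j).subset

theorem lim : CommutesWithLimits F := by
  apply R.quot_commutes G_commutes
  intro J _ _ _ S c hc a b h
  have h' : ∀ j, leg c j '' (a.2 : Set c.pt) = leg c j '' (b.2 : Set c.pt) ∧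
      ((leg c j a.1.1 = leg c j b.1.1 ∧ leg c j a.1.2 = leg c j b.1.2) ∨
        (leg c j '' (a.2 : Set c.pt)).Subsingleton ∨
        (leg c j a.1.1 = leg c j a.1.2 ∧ leg c j b.1.1 = leg c j b.1.2 ∧
          IsPreconnected (leg c j '' (a.2 : Set c.pt)))) := by
    intro j
    obtain ⟨h1, h2⟩ := h j
    refine ⟨congrArg (fun w : NonemptyCompacts (S.obj j) => (w : Set (S.obj j))) h1, ?_⟩
    rcases h2 with h2 | h2 | h2
    · exact Or.inl ⟨congrArg Prod.fst h2, congrArg Prod.snd h2⟩
    · exact Or.inr (Or.inl h2)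
    · exact Or.inr (Or.inr h2)
  have hab : a.2 = b.2 := by
    apply NonemptyCompacts.ext
    apply Subset.antisymm
    · exact subset_of_legs hc b.2.isCompact.isClosed fun j => (h' j).1.subset
    · exact subset_of_legs hc a.2.isCompact.isClosed fun j => (h' j).1.symm.subset
  refine ⟨hab, ?_⟩
  -- monotonicity along the spectrum
  have hmono : ∀ {i j : J} (_ : i ≤ j) {x y : c.pt},
      leg c (Opposite.op j) x = leg c (Opposite.op j) y →
      leg c (Opposite.op i) x = leg c (Opposite.op i) y := by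
    intro i j hij x y hxy
    rw [← leg_apply c (homOfLE hij).op x, ← leg_apply c (homOfLE hij).op y, hxy]
  by_cases h1 : a.1 = b.1
  · exact Or.inl h1
  by_cases h2 : (a.2 : Set c.pt).Subsingleton
  · exact Or.inr (Or.inl h2)
  -- a level where the first two alternatives fail
  have hj1 : ∃ j1 : J, ∀ j ≥ j1, ¬ (leg c (Opposite.op j) a.1.1 = leg c (Opposite.op j) b.1.1 ∧
      leg c (Opposite.op j) a.1.2 = leg c (Opposite.op j) b.1.2) := by
    by_contra hcon
    push Not at hcon
    apply h1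
    apply Prod.ext
    · apply ext_of_isLimit hc
      intro j
      obtain ⟨k, hk, hk', -⟩ := hcon j.unop
      exact hmono hk hk'
    · apply ext_of_isLimit hc
      intro j
      obtain ⟨k, hk, -, hk'⟩ := hcon j.unop
      exact hmono hk hk'
  have hj2 : ∃ j2 : J, ∀ j ≥ j2, ¬ (leg c (Opposite.op j) '' (a.2 : Set c.pt)).Subsingleton := by
    rw [Set.not_subsingleton_iff] at h2
    obtain ⟨x, hx, y, hy, hxy⟩ := h2
    by_contra hcon
    push Not at hcon
    apply hxy
    apply ext_of_isLimit hc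
    intro j
    obtain ⟨k, hk, hk'⟩ := hcon j.unop
    exact hmono hk (hk' ⟨x, hx, rfl⟩ ⟨y, hy, rfl⟩)
  obtain ⟨j1, hj1⟩ := hj1
  obtain ⟨j2, hj2⟩ := hj2
  obtain ⟨j3, h13, h23⟩ := exists_ge_ge j1 j2
  have h3 : ∀ j ≥ j3, leg c (Opposite.op j) a.1.1 = leg c (Opposite.op j) a.1.2 ∧
      leg c (Opposite.op j) b.1.1 = leg c (Opposite.op j) b.1.2 ∧
      IsPreconnected (leg c (Opposite.op j) '' (a.2 : Set c.pt)) := by
    intro j hj
    exact ((h' (Opposite.op j)).2.resolve_left (hj1 j (h13.trans hj))).resolve_left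
      (hj2 j (h23.trans hj))
  refine Or.inr (Or.inr ⟨?_, ?_, ?_⟩)
  · apply ext_of_isLimit hc
    intro j
    obtain ⟨k, hk, hk'⟩ := exists_ge_ge j.unop j3
    exact hmono hk (h3 k hk').1
  · apply ext_of_isLimit hc
    intro j
    obtain ⟨k, hk, hk'⟩ := exists_ge_ge j.unop j3
    exact hmono hk (h3 k hk').2.1
  · rw [isPreconnected_iff_subset_of_disjoint_closed]
    intro u v hu hv huv hd
    by_contra hcon
    push Not at hcon
    obtain ⟨hnu, hnv⟩ := hcon
    have hAc : IsClosed (a.2 : Set c.pt) := a.2.isCompact.isClosed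
    have hdis : Disjoint ((a.2 : Set c.pt) ∩ u) ((a.2 : Set c.pt) ∩ v) := by
      rw [Set.disjoint_left]
      rintro x ⟨hx, hxu⟩ ⟨-, hxv⟩
      have : x ∈ (a.2 : Set c.pt) ∩ (u ∩ v) := ⟨hx, hxu, hxv⟩
      rw [hd] at this
      exact this
    obtain ⟨k0, hk0⟩ := exists_leg_disjoint hc (hAc.inter hu) (hAc.inter hv) hdis
    obtain ⟨k, hk, hk'⟩ := exists_ge_ge k0.unop j3
    have hdk : Disjoint (leg c (Opposite.op k) '' ((a.2 : Set c.pt) ∩ u))
        (leg c (Opposite.op k) '' ((a.2 : Set c.pt) ∩ v)) := by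
      rw [Set.disjoint_left]
      rintro _ ⟨x, hx, rfl⟩ ⟨y, hy, hyx⟩
      exact Set.disjoint_left.1 hk0 ⟨x, hx, rfl⟩ ⟨y, hy, hmono hk hyx⟩
    have hpre := (h3 k hk').2.2
    rw [isPreconnected_iff_subset_of_disjoint_closed] at hpre
    have hcl : ∀ w : Set c.pt, IsClosed w →
        IsClosed (leg c (Opposite.op k) '' ((a.2 : Set c.pt) ∩ w)) := fun w hw =>
      ((hAc.inter hw).isCompact.image (continuous_hom (leg c (Opposite.op k)))).isClosed
    have hcov : leg c (Opposite.op k) '' (a.2 : Set c.pt) ⊆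
        leg c (Opposite.op k) '' ((a.2 : Set c.pt) ∩ u) ∪
        leg c (Opposite.op k) '' ((a.2 : Set c.pt) ∩ v) := by
      rintro _ ⟨x, hx, rfl⟩
      rcases huv hx with hxu | hxv
      · exact Or.inl ⟨x, ⟨hx, hxu⟩, rfl⟩
      · exact Or.inr ⟨x, ⟨hx, hxv⟩, rfl⟩
    have hemp : leg c (Opposite.op k) '' (a.2 : Set c.pt) ∩
        (leg c (Opposite.op k) '' ((a.2 : Set c.pt) ∩ u) ∩
        leg c (Opposite.op k) '' ((a.2 : Set c.pt) ∩ v)) = ∅ := by
      rw [hdk.inter_eq, inter_empty]
    rcases hpre _ _ (hcl u hu) (hcl v hv) hcov hemp with h5 | h5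
    · obtain ⟨x, hx, hxu⟩ := not_subset.1 hnu
      exact Set.disjoint_left.1 hdk (h5 ⟨x, hx, rfl⟩)
        ⟨x, ⟨hx, (huv hx).resolve_left hxu⟩, rfl⟩
    · obtain ⟨x, hx, hxv⟩ := not_subset.1 hnv
      exact Set.disjoint_left.1 hdk ⟨x, ⟨hx, (huv hx).resolve_right hxv⟩, rfl⟩
        (h5 ⟨x, hx, rfl⟩)

end Pool.Agent.R818.Functors.Hyper
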