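import Pool.Agent.R818.Functors.Hyper

/-!
# The quotient of `X × X × exp X`: finite 1-preimages are preserved, 1-preimages are not
-/

set_option autoImplicit false

open CategoryTheory Topology Set TopologicalSpace

namespace Pool.Agent.R818.Functors.Hyper

/-- lifting of elements whose coordinates come from the subspace -/
theorem exists_lift {X Y : CompHaus.{0}} (f : X ⟶ Y) (hf : Function.Injective f) (w : V Y)
    (h1 : w.1.1 ∈ range f) (h2 : w.1.2 ∈ range f) (h3 : (w.2 : Set Y) ⊆ range f) :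
    ∃ c : F.obj X, F.map f c = el Y w := by
  obtain ⟨⟨y, y'⟩, B⟩ := w
  obtain ⟨x, rfl⟩ := h1
  obtain ⟨x', rfl⟩ := h2
  have hc : IsCompact (f ⁻¹' (B : Set Y)) :=
    (B.isCompact.isClosed.preimage (continuous_hom f)).isCompact
  have hne : (f ⁻¹' (B : Set Y)).Nonempty := by
    obtain ⟨b, hb⟩ := B.nonempty
    obtain ⟨z, rfl⟩ := h3 hb
    exact ⟨z, hb⟩
  let A : NonemptyCompacts X := ⟨⟨f ⁻¹' (B : Set Y), hc⟩, hne⟩
  refine ⟨el X ((x, x'), A), ?_⟩
  rw [map_el]
  congr 1
  refine Prod.ext rfl ?_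
  apply NonemptyCompacts.ext
  exact image_preimage_eq_of_subset h3

theorem finite_one_preimages : PreservesFiniteOnePreimages F := by
  intro D hfin hf hft hp hD
  apply bicomm_of mono hf
  intro a b hab
  obtain ⟨w, rfl⟩ := el_surj _ a
  obtain ⟨v, rfl⟩ := el_surj _ b
  rw [map_el, map_el, el_eq] at hab
  obtain ⟨h1, h2⟩ := hab
  have h1' : D.pY '' (v.2 : Set D.Yt) = D.f '' (w.2 : Set D.X) :=
    congrArg (fun B : NonemptyCompacts D.Y => (B : Set D.Y)) h1
  have key : ∀ y : D.Yt, ∀ x : D.X, D.pY y = D.f x → ∃ z, D.pX z = x ∧ D.ft z = y := by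
    intro y x hxy
    have h3 : y ∈ D.pY ⁻¹' {D.f x} := hxy
    rw [← hD x] at h3
    obtain ⟨z, hz, hz'⟩ := h3
    exact ⟨z, hz, hz'⟩
  have hB : (v.2 : Set D.Yt) ⊆ range D.ft := by
    intro y hy
    have h3 : D.pY y ∈ D.f '' (w.2 : Set D.X) := by
      rw [← h1']
      exact ⟨y, hy, rfl⟩
    obtain ⟨x, -, hx⟩ := h3
    obtain ⟨z, -, hz⟩ := key y x hx.symm
    exact ⟨z, hz⟩
  -- the case of a subsingleton
  have hsub : (D.pY '' (v.2 : Set D.Yt)).Subsingleton → ∃ c : F.obj D.Xt, F.map D.ft c = el D.Yt v := by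
    intro hs
    have hv : (v.2 : Set D.Yt).Subsingleton := by
      intro y hy y' hy'
      have h3 : D.pY y ∈ D.f '' (w.2 : Set D.X) := by
        rw [← h1']
        exact ⟨y, hy, rfl⟩
      obtain ⟨x, -, hx⟩ := h3
      have h4 : D.pY y' = D.f x := by rw [hx]; exact hs ⟨y', hy', rfl⟩ ⟨y, hy, rfl⟩
      obtain ⟨z, hz1, hz2⟩ := key y x hx.symm
      obtain ⟨z', hz1', hz2'⟩ := key y' x h4
      have : z = z' := hp.1 (hz1.trans hz1'.symm)
      rw [← hz2, ← hz2', this]
    obtain ⟨y, hy⟩ := v.2.nonempty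
    obtain ⟨c, hc⟩ := exists_lift D.ft hft ((y, y), v.2) (hB hy) (hB hy) hB
    refine ⟨c, ?_⟩
    rw [hc, el_eq]
    exact ⟨rfl, Or.inr (Or.inl hv)⟩
  rcases h2 with h2 | h2 | ⟨-, -, h2⟩
  · have e1 : D.pY v.1.1 = D.f w.1.1 := congrArg Prod.fst h2
    have e2 : D.pY v.1.2 = D.f w.1.2 := congrArg Prod.snd h2
    obtain ⟨z1, -, hz1⟩ := key _ _ e1
    obtain ⟨z2, -, hz2⟩ := key _ _ e2
    exact exists_lift D.ft hft v ⟨z1, hz1⟩ ⟨z2, hz2⟩ hB
  · exact hsub h2
  · apply hsub
    have h3 : IsPreconnected (D.pY '' (v.2 : Set D.Yt)) := h2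
    rw [h1'] at h3 ⊢
    have hi : IsInducing D.f := ((continuous_hom D.f).isClosedEmbedding hf).isInducing
    have h4 : IsPreconnected (w.2 : Set D.X) := hi.isPreconnected_image.1 h3
    have h5 : (w.2 : Set D.X).Subsingleton := by
      have hd : DiscreteTopology D.X := @Finite.instDiscreteTopology _ _
        (@T2Space.t1Space _ _ D.X.is_hausdorff) hfin
      exact h4.subsingleton
    exact h5.image D.f

/-- the square -/
noncomputable def D : Square where
  Xt := CompHaus.of unitInterval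
  Yt := CompHaus.of (unitInterval ⊕ Bool)
  X := CompHaus.of unitInterval
  Y := CompHaus.of (unitInterval ⊕ Unit)
  ft := CompHausLike.ofHom _ ⟨Sum.inl, continuous_inl⟩
  f := CompHausLike.ofHom _ ⟨Sum.inl, continuous_inl⟩
  pX := CompHausLike.ofHom _ ⟨id, continuous_id⟩
  pY := CompHausLike.ofHom _ ⟨Sum.map id (fun _ => ()), by fun_prop⟩
  comm := rfl

theorem D_bicommutative : D.Bicommutative := by
  intro x
  ext y
  constructor
  · rintro ⟨z, hz, rfl⟩
    have h1 : z = x := hz
    rw [h1]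
    rfl
  · intro hy
    have h1 : Sum.map (id : unitInterval → unitInterval) (fun _ : Bool => ()) y = Sum.inl x := hy
    rcases y with y | y
    · exact ⟨y, Sum.inl.inj h1, rfl⟩
    · exact absurd h1 (by simp)

/-- the whole interval -/
noncomputable def top : NonemptyCompacts unitInterval := ⊤

theorem not_one_preimages : ¬ PreservesOnePreimages F := by
  intro h
  have hD := h D Sum.inl_injective Sum.inl_injective Function.bijective_id D_bicommutative
  let A : NonemptyCompacts D.X := top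
  let a : F.obj D.X := el D.X (((0 : unitInterval), (0 : unitInterval)), A)
  let B : NonemptyCompacts D.Yt := NonemptyCompacts.map D.ft (continuous_hom D.ft) top
  let b : F.obj D.Yt := el D.Yt (((Sum.inr false : unitInterval ⊕ Bool),
    (Sum.inr true : unitInterval ⊕ Bool)), B)
  have hAset : (top : Set unitInterval) = univ := NonemptyCompacts.coe_top
  have hab : F.map D.pY b = F.map D.f a := by
    change F.map D.pY (el D.Yt _) = F.map D.f (el D.X _)
    rw [map_el, map_el, el_eq]
    have hset : NonemptyCompacts.map D.pY (continuous_hom D.pY) B =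
        NonemptyCompacts.map D.f (continuous_hom D.f) A := by
      apply NonemptyCompacts.ext
      change D.pY '' (D.ft '' (top : Set unitInterval)) = D.f '' (top : Set unitInterval)
      rw [image_image]
      rfl
    refine ⟨hset, Or.inr (Or.inr ⟨rfl, rfl, ?_⟩)⟩
    change IsPreconnected ((NonemptyCompacts.map D.pY (continuous_hom D.pY) B :
      NonemptyCompacts D.Y) : Set D.Y)
    rw [hset]
    change IsPreconnected (D.f '' (top : Set unitInterval))
    rw [hAset]
    have hpre : _root_.IsPreconnected (univ : Set unitInterval) := isPreconnected_univ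
    exact hpre.image (D.f : unitInterval → D.Y) (continuous_hom D.f).continuousOn
  have hb : b ∈ (D.map F).pY ⁻¹' {(D.map F).f a} := hab
  rw [← hD a] at hb
  obtain ⟨c, -, hc⟩ := hb
  obtain ⟨w, rfl⟩ := el_surj _ c
  have hc' : F.map D.ft (el D.Xt w) = b := hc
  change F.map D.ft (el D.Xt w) = el D.Yt _ at hc'
  rw [map_el, el_eq] at hc'
  obtain ⟨h1, h2⟩ := hc'
  have hset : D.ft '' (w.2 : Set D.Xt) = D.ft '' (top : Set unitInterval) :=
    congrArg (fun B : NonemptyCompacts D.Yt => (B : Set D.Yt)) h1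
  rcases h2 with h2 | h2 | ⟨-, h2, -⟩
  · have h3 : (Sum.inl w.1.1 : unitInterval ⊕ Bool) = Sum.inr false := congrArg Prod.fst h2
    exact absurd h3 (by simp)
  · have h4 : (D.ft '' (w.2 : Set D.Xt)).Subsingleton := h2
    rw [hset] at h4
    have h5 : D.ft (0 : unitInterval) = D.ft (1 : unitInterval) :=
      h4 ⟨(0 : unitInterval), by rw [hAset]; trivial, rfl⟩
        ⟨(1 : unitInterval), by rw [hAset]; trivial, rfl⟩
    have h6 : (0 : unitInterval) = 1 := Sum.inl_injective h5
    exact zero_ne_one h6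
  · have h3 : (Sum.inr false : unitInterval ⊕ Bool) = Sum.inr true := h2
    exact absurd (Sum.inr.inj h3) (by decide)

end Pool.Agent.R818.Functors.Hyper
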