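import Mathlib

/-!
# Functors on compact Hausdorff spaces: threads
-/

set_option autoImplicit false

open CategoryTheory Topology Set

namespace Pool.Agent.R818.Functors

/-- Covariant functors from compact Hausdorff spaces to compact Hausdorff spaces. -/
abbrev CFun := CompHaus.{0} ⥤ CompHaus.{0}

/-- `F` commutes with limits of inverse spectra. -/
def CommutesWithLimits (F : CFun) : Prop :=
  ∀ (J : Type) [Preorder J] [Nonempty J] [IsDirectedOrder J] (S : Jᵒᵖ ⥤ CompHaus.{0})
    (c : Limits.Cone S), Nonempty (Limits.IsLimit c) → Nonempty (Limits.IsLimit (F.mapCone c))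

section
variable {K : Type} [SmallCategory K]

theorem isLimit_iff_threads (S : K ⥤ CompHaus.{0}) (c : Limits.Cone S) :
    Nonempty (Limits.IsLimit c) ↔ ∀ s : (∀ j, S.obj j), (∀ i j (f : i ⟶ j), S.map f (s i) = s j) →
      ∃! x : c.pt, ∀ j, c.π.app j x = s j := by
  have h1 : Nonempty (Limits.IsLimit c) ↔
      Nonempty (Limits.IsLimit ((forget CompHaus.{0}).mapCone c)) := by
    constructor
    · rintro ⟨h⟩
      exact ⟨Limits.isLimitOfPreserves (forget CompHaus.{0}) h⟩
    · rintro ⟨h⟩
      exact ⟨Limits.isLimitOfReflects (forget CompHaus.{0}) h⟩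
  rw [h1, Limits.Types.isLimit_iff]
  constructor
  · intro h s hs
    exact h s (fun {i j} f => hs i j f)
  · intro h s hs
    exact h s (fun i j f => hs f)

/-- the legs of a cone, with a plain source -/
def leg {S : K ⥤ CompHaus.{0}} (c : Limits.Cone S) (j : K) : c.pt ⟶ S.obj j := c.π.app j

theorem leg_comp {S : K ⥤ CompHaus.{0}} (c : Limits.Cone S) {i j : K} (f : i ⟶ j) :
    leg c i ≫ S.map f = leg c j := c.w f

theorem leg_apply {S : K ⥤ CompHaus.{0}} (c : Limits.Cone S) {i j : K} (f : i ⟶ j) (x : c.pt) :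
    S.map f (leg c i x) = leg c j x := by
  rw [← leg_comp c f]
  rfl

/-- unique existence of a point with prescribed thread -/
theorem thread_of_isLimit {S : K ⥤ CompHaus.{0}} {c : Limits.Cone S}
    (hc : Nonempty (Limits.IsLimit c)) (s : ∀ j, S.obj j)
    (hs : ∀ i j (f : i ⟶ j), S.map f (s i) = s j) :
    ∃ x : c.pt, (∀ j, leg c j x = s j) ∧ ∀ y : c.pt, (∀ j, leg c j y = s j) → y = x := by
  obtain ⟨x, hx, h⟩ := (isLimit_iff_threads S c).1 hc s hs
  exact ⟨x, hx, fun y hy => h y hy⟩

theorem ext_of_isLimit {S : K ⥤ CompHaus.{0}} {c : Limits.Cone S}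
    (hc : Nonempty (Limits.IsLimit c)) {x y : c.pt} (h : ∀ j, leg c j x = leg c j y) : x = y := by
  obtain ⟨z, -, hz⟩ := thread_of_isLimit hc (fun j => leg c j y) (fun i j f => leg_apply c f y)
  rw [hz x h, hz y fun _ => rfl]

end

/-- the concrete form of continuity of a functor -/
theorem commutesWithLimits_iff (F : CFun) : CommutesWithLimits F ↔
    ∀ (J : Type) [Preorder J] [Nonempty J] [IsDirectedOrder J] (S : Jᵒᵖ ⥤ CompHaus.{0})
      (c : Limits.Cone S), Nonempty (Limits.IsLimit c) → ∀ s : (∀ j, F.obj (S.obj j)),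
        (∀ i j (f : i ⟶ j), F.map (S.map f) (s i) = s j) →
        ∃ x : F.obj c.pt, (∀ j, F.map (leg c j) x = s j) ∧
          ∀ y : F.obj c.pt, (∀ j, F.map (leg c j) y = s j) → y = x := by
  constructor
  · intro h J _ _ _ S c hc s hs
    exact (isLimit_iff_threads (S ⋙ F) (F.mapCone c)).1 (h J S c hc) s hs
  · intro h J _ _ _ S c hc
    rw [isLimit_iff_threads]
    intro s hs
    exact h J S c hc s hs

end Pool.Agent.R818.Functors
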