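import Pool.Agent.R818.Functors.Lim

/-!
# Quotients of functors on compacta by closed functorial equivalence relations
-/

set_option autoImplicit false

open CategoryTheory Topology Set

namespace Pool.Agent.R818.Functors

theorem t2_quotient {X : Type} [TopologicalSpace X] [CompactSpace X] [T2Space X] (s : Setoid X)
    (hs : IsClosed {p : X × X | s p.1 p.2}) : T2Space (Quotient s) := by
  -- saturations of closed sets are closed
  have hsat : ∀ C : Set X, IsClosed C → IsClosed {x | ∃ y ∈ C, s y x} := by
    intro C hC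
    have h1 : {x | ∃ y ∈ C, s y x} = Prod.snd '' ({p : X × X | s p.1 p.2} ∩ (C ×ˢ univ)) := by
      ext x
      constructor
      · rintro ⟨y, hy, hyx⟩
        exact ⟨(y, x), ⟨hyx, hy, mem_univ _⟩, rfl⟩
      · rintro ⟨⟨y, x'⟩, ⟨h, hy, -⟩, rfl⟩
        exact ⟨y, hy, h⟩
    rw [h1]
    exact ((hs.inter (hC.prod isClosed_univ)).isCompact.image continuous_snd).isClosed
  -- the open set of classes contained in an open set
  have hopen : ∀ U : Set X, IsOpen U → IsOpen {q : Quotient s | ∀ x, Quotient.mk s x = q → x ∈ U} := by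
    intro U hU
    rw [← isQuotientMap_quotient_mk'.isOpen_preimage, ← isClosed_compl_iff]
    convert hsat Uᶜ hU.isClosed_compl using 1
    ext x
    simp only [mem_compl_iff, mem_preimage, mem_ofPred_eq, not_forall]
    constructor
    · rintro ⟨y, hy, hyU⟩
      exact ⟨y, hyU, Quotient.exact hy⟩
    · rintro ⟨y, hy, hyx⟩
      exact ⟨y, Quotient.sound hyx, hy⟩
  refine ⟨fun p q hpq => ?_⟩
  obtain ⟨x, rfl⟩ := Quotient.exists_rep p
  obtain ⟨y, rfl⟩ := Quotient.exists_rep q
  have hcl : ∀ x : X, IsClosed {z | s x z} := by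
    intro x
    have := hsat {x} isClosed_singleton
    simpa using this
  have hdisj : Disjoint {z | s x z} {z | s y z} := by
    rw [Set.disjoint_left]
    intro z hz hz'
    exact hpq (Quotient.sound (s.trans hz (s.symm hz')))
  obtain ⟨U, V, hU, hV, hxU, hyV, hUV⟩ := normal_separation (hcl x) (hcl y) hdisj
  refine ⟨_, _, hopen U hU, hopen V hV, ?_, ?_, ?_⟩
  · intro z hz
    exact hxU (s.symm (Quotient.exact hz))
  · intro z hz
    exact hyV (s.symm (Quotient.exact hz))
  · rw [Set.disjoint_left]
    intro q hq hq'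
    obtain ⟨z, rfl⟩ := Quotient.exists_rep q
    exact Set.disjoint_left.1 hUV (hq z rfl) (hq' z rfl)

/-- a closed functorial equivalence relation on a functor -/
structure Rel (G : CFun) where
  r : ∀ X : CompHaus.{0}, Setoid (G.obj X)
  closed : ∀ X, IsClosed {p : G.obj X × G.obj X | r X p.1 p.2}
  map : ∀ {X Y : CompHaus.{0}} (f : X ⟶ Y) {a b : G.obj X}, r X a b → r Y (G.map f a) (G.map f b)

namespace Rel

variable {G : CFun} (R : Rel G)

instance (X : CompHaus.{0}) : T2Space (Quotient (R.r X)) := t2_quotient _ (R.closed X)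

instance (X : CompHaus.{0}) : CompactSpace (Quotient (R.r X)) := Quotient.compactSpace

/-- the quotient functor -/
def quot : CFun where
  obj X := CompHaus.of (Quotient (R.r X))
  map {X Y} f := CompHausLike.ofHom _ ⟨Quotient.map (G.map f) (fun _ _ h => R.map f h),
    Continuous.quotient_map' (G.map f).hom.hom.continuous _⟩
  map_id X := by
    ext q
    obtain ⟨x, rfl⟩ := Quotient.exists_rep q
    change Quotient.mk _ (G.map (𝟙 X) x) = _
    rw [G.map_id]
    rfl
  map_comp {X Y Z} f g := by
    ext q
    obtain ⟨x, rfl⟩ := Quotient.exists_rep q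
    change Quotient.mk _ (G.map (f ≫ g) x) = _
    rw [G.map_comp]
    rfl

/-- the projection -/
def proj (X : CompHaus.{0}) (a : G.obj X) : R.quot.obj X := Quotient.mk (R.r X) a

theorem proj_surjective (X : CompHaus.{0}) : Function.Surjective (R.proj X) := Quotient.exists_rep

theorem proj_continuous (X : CompHaus.{0}) : Continuous (R.proj X) := continuous_quotient_mk'

theorem isQuotientMap_proj (X : CompHaus.{0}) : IsQuotientMap (R.proj X) := isQuotientMap_quotient_mk'

theorem map_proj {X Y : CompHaus.{0}} (f : X ⟶ Y) (a : G.obj X) :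
    R.quot.map f (R.proj X a) = R.proj Y (G.map f a) := rfl

theorem proj_eq {X : CompHaus.{0}} {a b : G.obj X} : R.proj X a = R.proj X b ↔ R.r X a b :=
  Quotient.eq

theorem quot_injective (hR : ∀ {X Y : CompHaus.{0}} (f : X ⟶ Y), Function.Injective f →
      ∀ a b : G.obj X, R.r Y (G.map f a) (G.map f b) → R.r X a b)
    {X Y : CompHaus.{0}} (f : X ⟶ Y) (hf : Function.Injective f) :
    Function.Injective (R.quot.map f) := by
  intro p q h
  obtain ⟨a, rfl⟩ := R.proj_surjective X p
  obtain ⟨b, rfl⟩ := R.proj_surjective X q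
  rw [R.map_proj, R.map_proj, R.proj_eq] at h
  rw [R.proj_eq]
  exact hR f hf a b h

theorem quot_surjective {X Y : CompHaus.{0}} (f : X ⟶ Y) (hf : Function.Surjective (G.map f)) :
    Function.Surjective (R.quot.map f) := by
  intro q
  obtain ⟨b, rfl⟩ := R.proj_surjective Y q
  obtain ⟨a, rfl⟩ := hf b
  exact ⟨R.proj X a, R.map_proj f a⟩

/-- continuity of the quotient functor -/
theorem quot_commutes (hG : CommutesWithLimits G)
    (hR : ∀ (J : Type) [Preorder J] [Nonempty J] [IsDirectedOrder J] (S : Jᵒᵖ ⥤ CompHaus.{0})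
      (c : Limits.Cone S), Nonempty (Limits.IsLimit c) → ∀ a b : G.obj c.pt,
      (∀ j, R.r (S.obj j) (G.map (leg c j) a) (G.map (leg c j) b)) → R.r c.pt a b) :
    CommutesWithLimits R.quot := by
  rw [commutesWithLimits_iff] at hG ⊢
  intro J _ _ _ S c hc s hs
  -- existence
  have hex : ∃ x : R.quot.obj c.pt, ∀ j, R.quot.map (leg c j) x = s j := by
    let T : Jᵒᵖ ⥤ TopCat.{0} :=
      { obj := fun j => TopCat.of {b : G.obj (S.obj j) // R.proj _ b = s j}
        map := fun {i j} f => TopCat.ofHom
          ⟨fun b => ⟨G.map (S.map f) b.1, by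
            have h1 : R.quot.map (S.map f) (R.proj _ b.1) = s j := by rw [b.2, hs i j f]
            rw [← h1, R.map_proj]⟩, by
            apply Continuous.subtype_mk
            exact (G.map (S.map f)).hom.hom.continuous.comp continuous_subtype_val⟩
        map_id := by
          intro j
          ext b
          change G.map (S.map (𝟙 j)) b.1 = b.1
          rw [S.map_id, G.map_id]
          rfl
        map_comp := by
          intro i j k f g
          ext b
          change G.map (S.map (f ≫ g)) b.1 = G.map (S.map g) (G.map (S.map f) b.1)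
          rw [S.map_comp, G.map_comp]
          rfl }
    have hne : ∀ j, Nonempty (T.obj j) := fun j => by
      obtain ⟨b, hb⟩ := R.proj_surjective _ (s j)
      exact ⟨⟨b, hb⟩⟩
    have hcomp : ∀ j, CompactSpace (T.obj j) := fun j => by
      have : T2Space (R.quot.obj (S.obj j)) := (R.quot.obj (S.obj j)).is_hausdorff
      have : T1Space (R.quot.obj (S.obj j)) := T2Space.t1Space
      have : IsClosed {b : G.obj (S.obj j) | R.proj _ b = s j} :=
        isClosed_singleton.preimage (R.proj_continuous _)
      exact isCompact_iff_compactSpace.1 this.isCompact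
    have ht2 : ∀ j, T2Space (T.obj j) := fun j => by
      change T2Space {b : G.obj (S.obj j) // R.proj _ b = s j}
      infer_instance
    obtain ⟨t⟩ := TopCat.nonempty_limitCone_of_compact_t2_cofiltered_system T
    obtain ⟨a, ha, -⟩ := hG J S c hc (fun j => (t.1 j).1)
      (fun i j f => congrArg Subtype.val (t.2 f))
    refine ⟨R.proj _ a, fun j => ?_⟩
    rw [R.map_proj, ha j]
    exact (t.1 j).2
  obtain ⟨x, hx⟩ := hex
  refine ⟨x, hx, ?_⟩
  intro y hy
  obtain ⟨a, rfl⟩ := R.proj_surjective _ x
  obtain ⟨b, rfl⟩ := R.proj_surjective _ y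
  rw [R.proj_eq]
  apply hR J S c hc
  intro j
  rw [← R.proj_eq, ← R.map_proj, ← R.map_proj, hx j]
  exact hy j

end Rel

end Pool.Agent.R818.Functors
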