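import Pool.Agent.R818.Functors.Defs
import Pool.Agent.R818.Functors.Quot

/-!
# Preservation of preimages and of one-point preimages
-/

set_option autoImplicit false

open CategoryTheory Topology Set

namespace Pool.Agent.R818.Functors

/-- `F` preserves preimages: squares with injective horizontal maps stay bicommutative. -/
def PreservesPreimages (F : CFun) : Prop :=
  ∀ D : Square, Function.Injective D.f → Function.Injective D.ft → D.Bicommutative →
    (D.map F).Bicommutative

/-- `F` preserves finite preimages: the same for squares in which `X` is finite. -/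
def PreservesFinitePreimages (F : CFun) : Prop :=
  ∀ D : Square, Finite D.X → Function.Injective D.f → Function.Injective D.ft → D.Bicommutative →
    (D.map F).Bicommutative

/-- `F` preserves 1-preimages: the same for squares in which `pX` is bijective. -/
def PreservesOnePreimages (F : CFun) : Prop :=
  ∀ D : Square, Function.Injective D.f → Function.Injective D.ft → Function.Bijective D.pX →
    D.Bicommutative → (D.map F).Bicommutative

/-- `F` preserves finite 1-preimages: the same for squares in which `X` is finite and `pX` is
bijective. -/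
def PreservesFiniteOnePreimages (F : CFun) : Prop :=
  ∀ D : Square, Finite D.X → Function.Injective D.f → Function.Injective D.ft →
    Function.Bijective D.pX → D.Bicommutative → (D.map F).Bicommutative

theorem comm_apply (D : Square) (x : D.Xt) : D.pY (D.ft x) = D.f (D.pX x) := by
  rw [← ConcreteCategory.comp_apply, D.comm, ConcreteCategory.comp_apply]

/-- bicommutativity of the image of a square with injective `f` under a monomorphic functor -/
theorem bicomm_of {D : Square} {F : CFun} (hF : Monomorphic F) (hf : Function.Injective D.f)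
    (h : ∀ (a : F.obj D.X) (b : F.obj D.Yt), F.map D.pY b = F.map D.f a →
      ∃ c : F.obj D.Xt, F.map D.ft c = b) : (D.map F).Bicommutative := by
  intro a
  apply Subset.antisymm
  · rintro _ ⟨c, hc, rfl⟩
    have h1 := comm_apply (D.map F) c
    have h2 : (D.map F).pX c = a := hc
    rw [h2] at h1
    exact h1
  · intro b hb
    obtain ⟨c, hc⟩ := h a b hb
    refine ⟨c, ?_, hc⟩
    apply hF _ _ D.f hf
    have h1 := comm_apply (D.map F) c
    change F.map D.pY (F.map D.ft c) = F.map D.f (F.map D.pX c) at h1
    change F.map D.f (F.map D.pX c) = F.map D.f a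
    rw [← h1, hc]
    exact hb

/-- preservation of finite preimages implies preservation of preimages -/
theorem preserves_of_finite {F : CFun} (hF : Monomorphic F) (h : PreservesFinitePreimages F) :
    PreservesPreimages F := by
  intro D hf hft hD
  rcases isEmpty_or_nonempty D.X with hX | hX
  · exact h D inferInstance hf hft hD
  apply bicomm_of hF hf
  intro a b hab
  -- functions vanishing on the range of `f`
  let Gs : Type := {g : C(D.Y, unitInterval) // ∀ x : D.X, g (D.f x) = 0}
  let P : CompHaus.{0} := CompHaus.of (Gs → unitInterval)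
  let e : D.Y ⟶ P := CompHausLike.ofHom _ ⟨fun y g => g.1 y, by
    apply continuous_pi
    intro g
    exact g.1.continuous⟩
  have he : ∀ x : D.X, e (D.f x) = (fun _ => 0 : Gs → unitInterval) := by
    intro x
    funext g
    exact g.2 x
  have he' : ∀ y : D.Y, e y = (fun _ => 0 : Gs → unitInterval) → ∃ x : D.X, D.f x = y := by
    intro y hy
    by_contra hcon
    have hcl : IsClosed (range D.f) := (isCompact_range (continuous_hom D.f)).isClosed
    have hdis : Disjoint (range D.f) {y} := by
      rw [disjoint_singleton_right]
      rintro ⟨x, hx⟩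
      exact hcon ⟨x, hx⟩
    obtain ⟨φ, hφ0, hφ1, hφ⟩ := exists_continuous_zero_one_of_isClosed hcl isClosed_singleton hdis
    let g : C(D.Y, unitInterval) := ⟨fun z => ⟨φ z, hφ z⟩, by fun_prop⟩
    have hg : ∀ x : D.X, g (D.f x) = 0 := fun x => Subtype.ext (hφ0 ⟨x, rfl⟩)
    have h1 := congrFun hy ⟨g, hg⟩
    have h2 : g y = 1 := Subtype.ext (hφ1 rfl)
    have h3 : g y = 0 := h1
    rw [h2] at h3
    exact one_ne_zero h3
  let pt : CompHaus.{0} := CompHaus.of PUnit.{1}
  let f' : pt ⟶ P := CompHausLike.ofHom _ ⟨fun _ => (fun _ => 0 : Gs → unitInterval),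
    continuous_const⟩
  let p' : D.Xt ⟶ pt := CompHausLike.ofHom _ ⟨fun _ => PUnit.unit, continuous_const⟩
  let r' : D.X ⟶ pt := CompHausLike.ofHom _ ⟨fun _ => PUnit.unit, continuous_const⟩
  let D' : Square :=
    { Xt := D.Xt
      Yt := D.Yt
      X := pt
      Y := P
      ft := D.ft
      f := f'
      pX := p'
      pY := D.pY ≫ e
      comm := by
        refine ConcreteCategory.hom_ext _ _ (fun x => ?_)
        change e (D.pY (D.ft x)) = f' PUnit.unit
        rw [comm_apply, he]
        rfl }
  have hD'b : D'.Bicommutative := by
    intro x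
    ext y
    constructor
    · rintro ⟨z, -, rfl⟩
      change e (D.pY (D.ft z)) = f' x
      rw [comm_apply, he]
      rfl
    · intro hy
      have h1 : e (D.pY y) = (fun _ => 0 : Gs → unitInterval) := hy
      obtain ⟨x', hx'⟩ := he' _ h1
      have h2 : y ∈ D.pY ⁻¹' {D.f x'} := hx'.symm
      rw [← hD x'] at h2
      obtain ⟨z, -, hz⟩ := h2
      exact ⟨z, rfl, hz⟩
  have hf' : Function.Injective f' := fun x y _ => rfl
  have h1 := h D' (by change Finite PUnit; infer_instance) hf' hft hD'b (F.map r' a)
  have h2 : b ∈ (D'.map F).pY ⁻¹' {(D'.map F).f (F.map r' a)} := by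
    change F.map (D.pY ≫ e) b = F.map f' (F.map r' a)
    rw [← ConcreteCategory.comp_apply (F.map r') (F.map f'), ← F.map_comp, F.map_comp,
      ConcreteCategory.comp_apply, hab, ← ConcreteCategory.comp_apply, ← F.map_comp]
    congr 3
    refine ConcreteCategory.hom_ext _ _ (fun x => ?_)
    exact he x
  rw [← h1] at h2
  obtain ⟨c, -, hc⟩ := h2
  exact ⟨c, hc⟩

end Pool.Agent.R818.Functors
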