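import Pool.Agent.R818.Functors.OnePre

/-!
# Profinite spaces as inverse limits, pullbacks over finite spaces
-/

set_option autoImplicit false

open CategoryTheory Topology Set

namespace Pool.Agent.R818.Functors.Skel

/-- directed families of closed conditions -/
theorem exists_leg_disjoint {J : Type} [Preorder J] [Nonempty J] [IsDirectedOrder J]
    {S : Jᵒᵖ ⥤ CompHaus.{0}} {c : Limits.Cone S} (hc : Nonempty (Limits.IsLimit c))
    {A B : Set c.pt} (hA : IsClosed A) (hB : IsClosed B) (hAB : Disjoint A B) :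
    ∃ j, Disjoint (leg c j '' A) (leg c j '' B) := by
  by_contra hcon
  push Not at hcon
  let K : J → Set (c.pt × c.pt) := fun j =>
    (A ×ˢ B) ∩ {p | leg c (Opposite.op j) p.1 = leg c (Opposite.op j) p.2}
  have hK : ∀ j, IsClosed (K j) := by
    intro j
    apply (hA.prod hB).inter
    exact isClosed_eq ((continuous_hom (leg c (Opposite.op j))).comp continuous_fst)
      ((continuous_hom (leg c (Opposite.op j))).comp continuous_snd)
  have hne : ∀ j, (K j).Nonempty := by
    intro j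
    obtain ⟨z, ⟨x, hx, hxz⟩, ⟨y, hy, hyz⟩⟩ := Set.not_disjoint_iff.1 (hcon (Opposite.op j))
    exact ⟨(x, y), ⟨hx, hy⟩, hxz.trans hyz.symm⟩
  have hmono : ∀ i j : J, i ≤ j → K j ⊆ K i := by
    rintro i j hij p ⟨hp, hp'⟩
    refine ⟨hp, ?_⟩
    have h1 : leg c (Opposite.op j) p.1 = leg c (Opposite.op j) p.2 := hp'
    change leg c (Opposite.op i) p.1 = leg c (Opposite.op i) p.2
    rw [← leg_apply c (homOfLE hij).op p.1, ← leg_apply c (homOfLE hij).op p.2, h1]
  have hdir : Directed (fun a b => b ⊆ a) K := by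
    intro i j
    obtain ⟨k, hik, hjk⟩ := exists_ge_ge i j
    exact ⟨k, hmono i k hik, hmono j k hjk⟩
  obtain ⟨p, hp⟩ := IsCompact.nonempty_iInter_of_directed_nonempty_isCompact_isClosed K hdir hne
    (fun j => (hK j).isCompact) hK
  rw [mem_iInter] at hp
  have h1 : p.1 = p.2 := ext_of_isLimit hc fun j => (hp j.unop).2
  obtain ⟨j0⟩ := (inferInstance : Nonempty J)
  have h2 := (hp j0).1
  rw [← Prod.mk.eta (p := p), h1] at h2
  exact Set.disjoint_left.1 hAB (show p.2 ∈ A from h2.1) h2.2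

/-- open sets of the limit come from stages -/
theorem exists_open_stage {J : Type} [Preorder J] [Nonempty J] [IsDirectedOrder J]
    {S : Jᵒᵖ ⥤ CompHaus.{0}} {c : Limits.Cone S} (hc : Nonempty (Limits.IsLimit c))
    {U : Set c.pt} (hU : IsOpen U) {x : c.pt} (hx : x ∈ U) :
    ∃ j, ∃ V : Set (S.obj j), IsOpen V ∧ leg c j x ∈ V ∧ leg c j ⁻¹' V ⊆ U := by
  obtain ⟨j, hj⟩ := exists_leg_disjoint hc (isClosed_singleton (x := x)) hU.isClosed_compl
    (disjoint_singleton_left.2 fun h => h hx)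
  refine ⟨j, (leg c j '' Uᶜ)ᶜ, ?_, ?_, ?_⟩
  · exact (hU.isClosed_compl.isCompact.image (continuous_hom (leg c j))).isClosed.isOpen_compl
  · rw [image_singleton, disjoint_singleton_left] at hj
    exact hj
  · intro y hy
    by_contra hyU
    exact hy ⟨y, hyU, rfl⟩

/-! ### The system of finite quotients finer than a map -/

section
variable {Z B : CompHaus.{0}} (p : Z ⟶ B)

/-- the finite quotients through which `p` factors -/
def PQ : Type := {Q : DiscreteQuotient Z // ∀ x y : Z, Q.proj x = Q.proj y → p x = p y}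

instance : Preorder (PQ p) where
  le a b := b.1 ≤ a.1
  le_refl a := le_refl a.1
  le_trans _ _ _ hab hbc := le_trans hbc hab

variable {p}

lemma PQ.proj_eq_of_le {a b : PQ p} (h : a ≤ b) {x y : Z} (hxy : b.1.proj x = b.1.proj y) :
    a.1.proj x = a.1.proj y := by
  have h' : b.1 ≤ a.1 := h
  rw [← DiscreteQuotient.ofLE_proj h' x, ← DiscreteQuotient.ofLE_proj h' y, hxy]

instance : IsDirectedOrder (PQ p) where
  directed a b := by
    refine ⟨⟨a.1 ⊓ b.1, fun x y hxy => ?_⟩, (inf_le_left : a.1 ⊓ b.1 ≤ a.1),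
      (inf_le_right : a.1 ⊓ b.1 ≤ b.1)⟩
    apply a.2 x y
    rw [← DiscreteQuotient.ofLE_proj (inf_le_left : a.1 ⊓ b.1 ≤ a.1) x,
      ← DiscreteQuotient.ofLE_proj (inf_le_left : a.1 ⊓ b.1 ≤ a.1) y, hxy]

variable (p)

/-- the partition into the fibres of `p`, for finite `B` -/
def fibQ [Finite B] : DiscreteQuotient Z where
  toSetoid := Setoid.ker p
  isOpen_setOfPred_rel := fun x => by
    have hd : DiscreteTopology B := @Finite.instDiscreteTopology _ _
        (@T2Space.t1Space _ _ B.is_hausdorff) ‹Finite B›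
    have : {y | Setoid.ker p x y} = p ⁻¹' {p x} := by
      ext y
      exact eq_comm
    change IsOpen {y | Setoid.ker p x y}
    rw [this]
    exact (isOpen_discrete _).preimage (continuous_hom p)

lemma fibQ_proj [Finite B] (x y : Z) (h : (fibQ p).proj x = (fibQ p).proj y) : p x = p y :=
  Quotient.exact h

instance [Finite B] : Nonempty (PQ p) := ⟨⟨fibQ p, fibQ_proj p⟩⟩

/-- the inverse system of finite quotients -/
def SQ : (PQ p)ᵒᵖ ⥤ CompHaus.{0} where
  obj j := CompHaus.of j.unop.1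
  map {i j} g := CompHausLike.ofHom _ ⟨DiscreteQuotient.ofLE (show i.unop.1 ≤ j.unop.1 from
    leOfHom g.unop), DiscreteQuotient.ofLE_continuous _⟩
  map_id j := by
    refine ConcreteCategory.hom_ext _ _ (fun x => ?_)
    exact DiscreteQuotient.ofLE_refl_apply x
  map_comp {i j k} f g := by
    refine ConcreteCategory.hom_ext _ _ (fun x => ?_)
    have h1 : i.unop.1 ≤ j.unop.1 := leOfHom f.unop
    have h2 : j.unop.1 ≤ k.unop.1 := leOfHom g.unop
    exact (DiscreteQuotient.ofLE_ofLE h1 h2 x).symm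

/-- the cone of projections -/
def SQcone : Limits.Cone (SQ p) where
  pt := Z
  π := { app := fun j => CompHausLike.ofHom _ ⟨j.unop.1.proj, j.unop.1.proj_continuous⟩
         naturality := by
          intro i j g
          refine ConcreteCategory.hom_ext _ _ (fun x => ?_)
          have h1 : i.unop.1 ≤ j.unop.1 := leOfHom g.unop
          exact (DiscreteQuotient.ofLE_proj h1 (show Z from x)).symm }

lemma leg_SQcone (j : (PQ p)ᵒᵖ) (x : Z) : leg (SQcone p) j x = j.unop.1.proj x := rfl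

theorem SQ_isLimit [Finite B] [TotallyDisconnectedSpace Z] :
    Nonempty (Limits.IsLimit (SQcone p)) := by
  rw [isLimit_iff_threads]
  intro s hs
  -- extend the thread to all discrete quotients
  have hJ : ∀ Q : DiscreteQuotient Z, ∀ x y : Z, (Q ⊓ fibQ p).proj x = (Q ⊓ fibQ p).proj y →
      p x = p y := by
    intro Q x y hxy
    apply fibQ_proj p
    rw [← DiscreteQuotient.ofLE_proj (inf_le_right : Q ⊓ fibQ p ≤ fibQ p) x,
      ← DiscreteQuotient.ofLE_proj (inf_le_right : Q ⊓ fibQ p ≤ fibQ p) y, hxy]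
  let J : DiscreteQuotient Z → PQ p := fun Q => ⟨Q ⊓ fibQ p, hJ Q⟩
  have hcomp : ∀ (a b : PQ p) (h : a ≤ b), DiscreteQuotient.ofLE (show b.1 ≤ a.1 from h)
      (s (Opposite.op b)) = s (Opposite.op a) := fun a b h => hs _ _ (homOfLE h).op
  let Qs : (Q : DiscreteQuotient Z) → Q := fun Q =>
    DiscreteQuotient.ofLE (inf_le_left : Q ⊓ fibQ p ≤ Q) (s (Opposite.op (J Q)))
  obtain ⟨x, hx⟩ := DiscreteQuotient.exists_of_compat Qs (by
    intro A B' h
    have h1 : J B' ≤ J A := inf_le_inf_right _ h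
    have h2 := hcomp _ _ h1
    change DiscreteQuotient.ofLE h (DiscreteQuotient.ofLE _ (s (Opposite.op (J A)))) =
      DiscreteQuotient.ofLE _ (s (Opposite.op (J B')))
    rw [← h2]
    erw [DiscreteQuotient.ofLE_ofLE, DiscreteQuotient.ofLE_ofLE])
  have hxs : ∀ j : (PQ p)ᵒᵖ, j.unop.1.proj x = s j := by
    intro j
    have h1 := hx j.unop.1
    rw [h1]
    have h2 : j.unop ≤ J j.unop.1 := (inf_le_left : j.unop.1 ⊓ fibQ p ≤ j.unop.1)
    exact hcomp _ _ h2
  refine ⟨x, hxs, ?_⟩
  intro y hy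
  change Z at y
  apply DiscreteQuotient.eq_of_forall_proj_eq (X := Z)
  intro Q
  have h1 : (J Q).1.proj y = (J Q).1.proj x := (hy (Opposite.op (J Q))).trans (hxs _).symm
  rw [← DiscreteQuotient.ofLE_proj (inf_le_left : Q ⊓ fibQ p ≤ Q) x,
    ← DiscreteQuotient.ofLE_proj (inf_le_left : Q ⊓ fibQ p ≤ Q) y]
  exact congrArg _ h1

/-- the induced map on the quotient -/
def rQ (j : (PQ p)ᵒᵖ) : (SQ p).obj j ⟶ B :=
  CompHausLike.ofHom _ ⟨Quotient.lift (s := j.unop.1.toSetoid) p
    (fun x y h => j.unop.2 x y (Quotient.sound h)), continuous_of_discreteTopology⟩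

lemma rQ_proj (j : (PQ p)ᵒᵖ) (x : Z) : rQ p j (leg (SQcone p) j x) = p x := rfl

lemma leg_surjective (j : (PQ p)ᵒᵖ) : Function.Surjective (leg (SQcone p) j) :=
  j.unop.1.proj_surjective

lemma rQ_comp (j : (PQ p)ᵒᵖ) : leg (SQcone p) j ≫ rQ p j = p := rfl

lemma rQ_map {i j : (PQ p)ᵒᵖ} (g : i ⟶ j) (x : (SQ p).obj i) :
    rQ p j ((SQ p).map g x) = rQ p i x := by
  obtain ⟨z, rfl⟩ := leg_surjective p i x
  rw [leg_apply, rQ_proj, rQ_proj]

lemma finite_SQ (j : (PQ p)ᵒᵖ) : Finite ((SQ p).obj j) := by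
  change Finite j.unop.1
  infer_instance

end

end Pool.Agent.R818.Functors.Skel
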