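import Pool.Agent.R818.Functors.Skel1

/-!
# Pullbacks over finite spaces and a Baire category argument
-/

set_option autoImplicit false

open CategoryTheory Topology Set

namespace Pool.Agent.R818.Functors.Skel

section
variable {A B R R' : CompHaus.{0}}

/-- the pullback -/
def pb (f : A ⟶ B) (r : R ⟶ B) : CompHaus.{0} :=
  sub (CompHaus.of (A × R)) {x | f x.1 = r x.2}
    (isClosed_eq ((continuous_hom f).comp continuous_fst) ((continuous_hom r).comp continuous_snd))

/-- first projection -/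
def pbFst (f : A ⟶ B) (r : R ⟶ B) : pb f r ⟶ A :=
  incl _ _ _ ≫ (CompHausLike.ofHom _ ⟨Prod.fst, continuous_fst⟩ : CompHaus.of (A × R) ⟶ A)

/-- second projection -/
def pbSnd (f : A ⟶ B) (r : R ⟶ B) : pb f r ⟶ R :=
  incl _ _ _ ≫ (CompHausLike.ofHom _ ⟨Prod.snd, continuous_snd⟩ : CompHaus.of (A × R) ⟶ R)

/-- points of the pullback -/
def pbMk (f : A ⟶ B) (r : R ⟶ B) (a : A) (x : R) (h : f a = r x) : pb f r := ⟨(a, x), h⟩

lemma pbFst_mk (f : A ⟶ B) (r : R ⟶ B) (a : A) (x : R) (h : f a = r x) :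
    pbFst f r (pbMk f r a x h) = a := rfl

lemma pbSnd_mk (f : A ⟶ B) (r : R ⟶ B) (a : A) (x : R) (h : f a = r x) :
    pbSnd f r (pbMk f r a x h) = x := rfl

lemma pb_comm_apply (f : A ⟶ B) (r : R ⟶ B) (y : pb f r) : f (pbFst f r y) = r (pbSnd f r y) :=
  y.2

lemma pb_ext {f : A ⟶ B} {r : R ⟶ B} {y z : pb f r} (h1 : pbFst f r y = pbFst f r z)
    (h2 : pbSnd f r y = pbSnd f r z) : y = z := Subtype.ext (Prod.ext h1 h2)

lemma pb_comm (f : A ⟶ B) (r : R ⟶ B) : pbSnd f r ≫ r = pbFst f r ≫ f :=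
  ConcreteCategory.hom_ext _ _ fun y => (pb_comm_apply f r y).symm

/-- maps into a pullback -/
def pbLift (f : A ⟶ B) (r : R ⟶ B) {W : CompHaus.{0}} (u : W ⟶ A) (v : W ⟶ R)
    (h : ∀ w, f (u w) = r (v w)) : W ⟶ pb f r :=
  haveI : CompactSpace {x : A × R | f x.1 = r x.2} := isCompact_iff_compactSpace.1
    (isClosed_eq ((continuous_hom f).comp continuous_fst)
      ((continuous_hom r).comp continuous_snd)).isCompact
  (CompHausLike.ofHom (X := W) (Y := {x : A × R | f x.1 = r x.2}) _ ⟨fun w => ⟨(u w, v w), h w⟩,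
    ((continuous_hom u).prodMk (continuous_hom v)).subtype_mk _⟩ : W ⟶ pb f r)

lemma pbLift_fst (f : A ⟶ B) (r : R ⟶ B) {W : CompHaus.{0}} (u : W ⟶ A) (v : W ⟶ R)
    (h : ∀ w, f (u w) = r (v w)) : pbLift f r u v h ≫ pbFst f r = u := rfl

lemma pbLift_snd (f : A ⟶ B) (r : R ⟶ B) {W : CompHaus.{0}} (u : W ⟶ A) (v : W ⟶ R)
    (h : ∀ w, f (u w) = r (v w)) : pbLift f r u v h ≫ pbSnd f r = v := rfl

/-- functoriality in the second variable -/
def pbMap (f : A ⟶ B) (r : R ⟶ B) (r' : R' ⟶ B) (g : R ⟶ R') (h : ∀ x, r' (g x) = r x) :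
    pb f r ⟶ pb f r' :=
  pbLift f r' (pbFst f r) (pbSnd f r ≫ g) fun w => by
    rw [pb_comm_apply]
    exact (h _).symm

lemma pbMap_fst (f : A ⟶ B) (r : R ⟶ B) (r' : R' ⟶ B) (g : R ⟶ R') (h : ∀ x, r' (g x) = r x) :
    pbMap f r r' g h ≫ pbFst f r' = pbFst f r := rfl

lemma pbMap_snd (f : A ⟶ B) (r : R ⟶ B) (r' : R' ⟶ B) (g : R ⟶ R') (h : ∀ x, r' (g x) = r x) :
    pbMap f r r' g h ≫ pbSnd f r' = pbSnd f r ≫ g := rfl

end

lemma map_comp_apply (F : CFun) {X Y Z : CompHaus.{0}} (f : X ⟶ Y) (g : Y ⟶ Z) (x : F.obj X) :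
    F.map (f ≫ g) x = F.map g (F.map f x) := by
  rw [F.map_comp]
  rfl

/-! ### Pullbacks of an inverse system -/

section
variable {J : Type} [Preorder J] [Nonempty J] [IsDirectedOrder J] {A B : CompHaus.{0}} (f : A ⟶ B)
  (S : Jᵒᵖ ⥤ CompHaus.{0}) (r : ∀ j, S.obj j ⟶ B)
  (hr : ∀ (i j : Jᵒᵖ) (g : i ⟶ j) (x : S.obj i), r j (S.map g x) = r i x)

/-- the system of pullbacks -/
def TQ : Jᵒᵖ ⥤ CompHaus.{0} where
  obj j := pb f (r j)
  map {i j} g := pbMap f (r i) (r j) (S.map g) (hr i j g)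
  map_id j := by
    refine ConcreteCategory.hom_ext _ _ (fun x => ?_)
    apply pb_ext
    · rfl
    · change S.map (𝟙 j) (pbSnd f (r j) x) = pbSnd f (r j) x
      rw [S.map_id]
      rfl
  map_comp {i j k} g h := by
    refine ConcreteCategory.hom_ext _ _ (fun x => ?_)
    apply pb_ext
    · rfl
    · change S.map (g ≫ h) (pbSnd f (r i) x) = S.map h (S.map g (pbSnd f (r i) x))
      rw [S.map_comp]
      rfl

/-- the cone -/
def TQcone (c : Limits.Cone S) (p : c.pt ⟶ B) (hp : ∀ j (x : c.pt), r j (leg c j x) = p x) :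
    Limits.Cone (TQ f S r hr) where
  pt := pb f p
  π := { app := fun j => pbMap f p (r j) (leg c j) (hp j)
         naturality := by
          intro i j g
          refine ConcreteCategory.hom_ext _ _ (fun x => ?_)
          apply pb_ext
          · rfl
          · exact (leg_apply c g (pbSnd f p x)).symm }

theorem TQ_isLimit {c : Limits.Cone S} (hc : Nonempty (Limits.IsLimit c)) (p : c.pt ⟶ B)
    (hp : ∀ j (x : c.pt), r j (leg c j x) = p x) :
    Nonempty (Limits.IsLimit (TQcone f S r hr c p hp)) := by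
  rw [isLimit_iff_threads]
  intro s hs
  have h1 : ∀ i j (g : i ⟶ j), pbFst f (r i) (s i) = pbFst f (r j) (s j) := by
    intro i j g
    have := congrArg (pbFst f (r j)) (hs i j g)
    exact this
  have h2 : ∀ i j (g : i ⟶ j), S.map g (pbSnd f (r i) (s i)) = pbSnd f (r j) (s j) := by
    intro i j g
    have := congrArg (pbSnd f (r j)) (hs i j g)
    exact this
  obtain ⟨z, hz, hzu⟩ := thread_of_isLimit hc (fun j => pbSnd f (r j) (s j)) h2
  obtain ⟨j0⟩ := (inferInstance : Nonempty Jᵒᵖ)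
  have hconst : ∀ j, pbFst f (r j) (s j) = pbFst f (r j0) (s j0) := by
    intro j
    obtain ⟨k, hk1, hk2⟩ := exists_ge_ge j.unop j0.unop
    rw [← h1 (Opposite.op k) j (homOfLE hk1).op, ← h1 (Opposite.op k) j0 (homOfLE hk2).op]
  have hx : f (pbFst f (r j0) (s j0)) = p z := by
    rw [← hp j0 z, hz j0]
    exact pb_comm_apply f (r j0) (s j0)
  refine ⟨pbMk f p (pbFst f (r j0) (s j0)) z hx, ?_, ?_⟩
  · intro j
    apply pb_ext
    · exact (hconst j).symm
    · exact hz j
  · intro y hy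
    have hy1 : pbFst f p y = pbFst f (r j0) (s j0) := congrArg (pbFst f (r j0)) (hy j0)
    have hy2 : ∀ j, leg c j (pbSnd f p y) = pbSnd f (r j) (s j) := fun j =>
      congrArg (pbSnd f (r j)) (hy j)
    apply pb_ext
    · exact hy1
    · exact hzu _ hy2

end

/-! ### The Baire argument -/

/-- the points over which all lifts exist -/
def Good (F : CFun) {A B : CompHaus.{0}} (f : A ⟶ B) (U : Set (F.obj A)) {R : CompHaus.{0}}
    (r : R ⟶ B) (b : F.obj B) : Prop :=
  ∀ e : F.obj R, F.map r e = b →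
    ∃ d : F.obj (pb f r), F.map (pbSnd f r) d = e ∧ F.map (pbFst f r) d ∈ U

lemma Good.mono {F : CFun} {A B : CompHaus.{0}} {f : A ⟶ B} {U U' : Set (F.obj A)}
    (h : U ⊆ U') {R : CompHaus.{0}} {r : R ⟶ B} {b : F.obj B} (hG : Good F f U r b) :
    Good F f U' r b := by
  intro e he
  obtain ⟨d, hd1, hd2⟩ := hG e he
  exact ⟨d, hd1, h hd2⟩

lemma Good.transfer {F : CFun} {A B : CompHaus.{0}} {f : A ⟶ B} {U : Set (F.obj A)}
    {R R' : CompHaus.{0}} {r : R ⟶ B} {r' : R' ⟶ B} {b : F.obj B} (hG : Good F f U r' b)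
    (ε : R ⟶ R') (δ : R' ⟶ R) (h1 : ε ≫ δ = 𝟙 R) (h2 : ε ≫ r' = r)
    (h3 : ∀ x, r (δ x) = r' x) : Good F f U r b := by
  intro e he
  have h4 : F.map r' (F.map ε e) = b := by
    rw [← map_comp_apply, h2, he]
  obtain ⟨d, hd1, hd2⟩ := hG _ h4
  refine ⟨F.map (pbMap f r' r δ h3) d, ?_, ?_⟩
  · rw [← map_comp_apply, pbMap_snd, map_comp_apply, hd1, ← map_comp_apply, h1, F.map_id]
    rfl
  · rw [← map_comp_apply, pbMap_fst]
    exact hd2

lemma finite_pb {A B R : CompHaus.{0}} (f : A ⟶ B) (r : R ⟶ B) (hA : Finite A) (hR : Finite R) :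
    Finite (pb f r) := by
  change Finite {x : A × R | f x.1 = r x.2}
  infer_instance

/-- the open set of good points -/
theorem exists_good {F : CFun} (hF : FinitelySquareSkeletal F) {A B R : CompHaus.{0}} (hA : Finite A)
    (hB : Finite B) (hR : Finite R) (f : A ⟶ B) (r : R ⟶ B) (hf : Function.Surjective f)
    (hr : Function.Surjective r) {U : Set (F.obj A)} (hU : IsOpen U) (hne : U.Nonempty) :
    ∃ V : Set (F.obj B), IsOpen V ∧ V.Nonempty ∧ V ⊆ F.map f '' U ∧ ∀ b ∈ V, Good F f U r b := by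
  let D : Square :=
    { Xt := pb f r
      Yt := R
      X := A
      Y := B
      ft := pbSnd f r
      f := f
      pX := pbFst f r
      pY := r
      comm := pb_comm f r }
  have hD1 : D.AllFinite := ⟨finite_pb f r hA hR, hR, hA, hB⟩
  have hD2 : D.Surjective := by
    refine ⟨?_, hf, ?_, hr⟩
    · intro x
      obtain ⟨a, ha⟩ := hf (r x)
      exact ⟨pbMk f r a x ha, rfl⟩
    · intro a
      obtain ⟨x, hx⟩ := hr (f a)
      exact ⟨pbMk f r a x hx.symm, rfl⟩
  have hdB : DiscreteTopology B := @Finite.instDiscreteTopology _ _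
        (@T2Space.t1Space _ _ B.is_hausdorff) hB
  have hD3 : D.Skeletal := by
    intro a W hW
    refine ⟨{f a}, (isOpen_discrete _ : IsOpen ({f a} : Set B)), ⟨_, rfl⟩, ?_, ?_⟩
    · rintro _ rfl
      exact ⟨a, mem_of_mem_nhds hW, rfl⟩
    · intro x hx
      have hx' : r x = f a := hx
      have ha : a ∈ W := mem_of_mem_nhds hW
      exact ⟨pbMk f r a x hx'.symm, ha, rfl⟩
  obtain ⟨a, ha⟩ := hne
  obtain ⟨V, hV1, hV2, hV3, hV4⟩ := hF D hD1 hD2 hD3 a U (hU.mem_nhds ha)
  refine ⟨V, hV1, hV2, hV3, ?_⟩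
  rintro b hb e rfl
  obtain ⟨d, hd1, hd2⟩ := hV4 hb
  exact ⟨d, hd2, hd1⟩

/-- continuity of the functor at open sets -/
theorem exists_open_stage_F {F : CFun} (hF : CommutesWithLimits F) {J : Type} [Preorder J]
    [Nonempty J] [IsDirectedOrder J] {S : Jᵒᵖ ⥤ CompHaus.{0}} {c : Limits.Cone S}
    (hc : Nonempty (Limits.IsLimit c)) {U : Set (F.obj c.pt)} (hU : IsOpen U) {x : F.obj c.pt}
    (hx : x ∈ U) : ∃ j, ∃ V : Set (F.obj (S.obj j)), IsOpen V ∧ F.map (leg c j) x ∈ V ∧
      F.map (leg c j) ⁻¹' V ⊆ U :=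
  exists_open_stage (hF J S c hc) hU hx

theorem ext_F {F : CFun} (hF : CommutesWithLimits F) {J : Type} [Preorder J]
    [Nonempty J] [IsDirectedOrder J] {S : Jᵒᵖ ⥤ CompHaus.{0}} {c : Limits.Cone S}
    (hc : Nonempty (Limits.IsLimit c)) {x y : F.obj c.pt}
    (h : ∀ j, F.map (leg c j) x = F.map (leg c j) y) : x = y :=
  ext_of_isLimit (hF J S c hc) h

/-- the limit argument -/
theorem exists_lift_of_good {F : CFun} (hF : CommutesWithLimits F) {A B : CompHaus.{0}}
    (hB : Finite B) (f : A ⟶ B) {Z : CompHaus.{0}} [TotallyDisconnectedSpace Z] (p : Z ⟶ B)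
    {U : Set (F.obj A)} {e : F.obj Z} (hG : ∀ j, Good F f U (rQ p j) (F.map p e)) :
    ∃ d : F.obj (pb f p), F.map (pbSnd f p) d = e ∧ F.map (pbFst f p) d ∈ closure U := by
  have hcS := SQ_isLimit p
  have hr : ∀ (i j : (PQ p)ᵒᵖ) (g : i ⟶ j) (x : (SQ p).obj i),
      rQ p j ((SQ p).map g x) = rQ p i x := fun i j g x => rQ_map p g x
  have hp : ∀ j (x : Z), rQ p j (leg (SQcone p) j x) = p x := fun j x => rQ_proj p j x
  have hcT := TQ_isLimit f (SQ p) (rQ p) hr hcS p hp
  let K : (PQ p)ᵒᵖ ⥤ TopCat.{0} :=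
    { obj := fun j => TopCat.of {d : F.obj (pb f (rQ p j)) //
        F.map (pbSnd f (rQ p j)) d = F.map (leg (SQcone p) j) e ∧
        F.map (pbFst f (rQ p j)) d ∈ closure U}
      map := fun {i j} g => TopCat.ofHom
        ⟨fun d => ⟨F.map (pbMap f (rQ p i) (rQ p j) ((SQ p).map g) (hr i j g)) d.1, by
          constructor
          · rw [← map_comp_apply, pbMap_snd, map_comp_apply, d.2.1, ← map_comp_apply, leg_comp]
          · rw [← map_comp_apply, pbMap_fst]
            exact d.2.2⟩, by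
          apply Continuous.subtype_mk
          exact (continuous_hom (F.map _)).comp continuous_subtype_val⟩
      map_id := by
        intro j
        ext d
        change F.map ((TQ f (SQ p) (rQ p) hr).map (𝟙 j)) d.1 = d.1
        rw [(TQ f (SQ p) (rQ p) hr).map_id, F.map_id]
        rfl
      map_comp := by
        intro i j k g h
        ext d
        change F.map ((TQ f (SQ p) (rQ p) hr).map (g ≫ h)) d.1 =
          F.map ((TQ f (SQ p) (rQ p) hr).map h) (F.map ((TQ f (SQ p) (rQ p) hr).map g) d.1)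
        rw [(TQ f (SQ p) (rQ p) hr).map_comp, map_comp_apply] }
  have hne : ∀ j, Nonempty (K.obj j) := by
    intro j
    obtain ⟨d, hd1, hd2⟩ := hG j (F.map (leg (SQcone p) j) e) (by
      rw [← map_comp_apply, rQ_comp]
      rfl)
    exact ⟨⟨d, hd1, subset_closure hd2⟩⟩
  have hcomp : ∀ j, CompactSpace (K.obj j) := by
    intro j
    have hT1 : T1Space (F.obj ((SQ p).obj j)) :=
      @T2Space.t1Space _ _ (F.obj ((SQ p).obj j)).is_hausdorff
    have h1 : IsClosed {d : F.obj (pb f (rQ p j)) |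
        F.map (pbSnd f (rQ p j)) d = F.map (leg (SQcone p) j) e ∧
        F.map (pbFst f (rQ p j)) d ∈ closure U} := by
      apply IsClosed.inter
      · have h6 : IsClosed ({F.map (leg (SQcone p) j) e} : Set (F.obj ((SQ p).obj j))) :=
          @isClosed_singleton _ _ hT1 _
        exact h6.preimage (continuous_hom (F.map (pbSnd f (rQ p j))))
      · exact isClosed_closure.preimage (continuous_hom (F.map (pbFst f (rQ p j))))
    exact isCompact_iff_compactSpace.1 h1.isCompact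
  have ht2 : ∀ j, T2Space (K.obj j) := by
    intro j
    change T2Space {d : F.obj (pb f (rQ p j)) //
        F.map (pbSnd f (rQ p j)) d = F.map (leg (SQcone p) j) e ∧
        F.map (pbFst f (rQ p j)) d ∈ closure U}
    infer_instance
  obtain ⟨t⟩ := TopCat.nonempty_limitCone_of_compact_t2_cofiltered_system K
  obtain ⟨d, hd, -⟩ := (commutesWithLimits_iff F).1 hF (PQ p) (TQ f (SQ p) (rQ p) hr)
    (TQcone f (SQ p) (rQ p) hr (SQcone p) p hp) hcT (fun j => (t.1 j).1)
    (fun i j g => congrArg Subtype.val (t.2 g))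
  have hd' : ∀ j, F.map (pbMap f p (rQ p j) (leg (SQcone p) j) (hp j)) d = (t.1 j).1 := hd
  refine ⟨d, ?_, ?_⟩
  · apply ext_F hF hcS
    intro j
    have h1 := congrArg (F.map (pbSnd f (rQ p j))) (hd' j)
    rw [← map_comp_apply, pbMap_snd, map_comp_apply] at h1
    exact h1.trans (t.1 j).2.1
  · obtain ⟨j0⟩ := (inferInstance : Nonempty (PQ p)ᵒᵖ)
    have h1 := congrArg (F.map (pbFst f (rQ p j0))) (hd' j0)
    rw [← map_comp_apply, pbMap_fst] at h1
    change F.map (pbFst f p) d ∈ closure U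
    rw [h1]
    exact (t.1 j0).2.2

theorem baire (X : Type) [TopologicalSpace X] [CompactSpace X] [T2Space X] : BaireSpace X :=
  inferInstance

/-- Lemma C -/
theorem lemmaC {F : CFun} (hepi : Epimorphic F) (hlim : CommutesWithLimits F)
    (hF : FinitelySquareSkeletal F) {A B : CompHaus.{0}} (hA : Finite A) (hB : Finite B)
    (f : A ⟶ B) (hf : Function.Surjective f) {Z : CompHaus.{0}} [TotallyDisconnectedSpace Z]
    (p : Z ⟶ B) (hp : Function.Surjective p) {U : Set (F.obj A)} (hU : IsOpen U)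
    (hne : U.Nonempty) :
    ∃ O : Set (F.obj B), IsOpen O ∧ O.Nonempty ∧ ∀ e : F.obj Z, F.map p e ∈ O →
      ∃ d : F.obj (pb f p), F.map (pbSnd f p) d = e ∧ F.map (pbFst f p) d ∈ closure U := by
  set O : Set (F.obj B) := interior (closure (F.map f '' U)) with hOdef
  have hOopen : IsOpen O := isOpen_interior
  have hOne : O.Nonempty := by
    obtain ⟨V, hV1, ⟨v, hv⟩, hV3, -⟩ := exists_good hF hA hB hB f (𝟙 B) hf
      Function.surjective_id hU hne
    exact ⟨v, mem_interior.2 ⟨V, hV3.trans subset_closure, hV1, hv⟩⟩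
  -- density of the good points
  have hdense : ∀ (R : CompHaus.{0}) (r : R ⟶ B), Finite R → Function.Surjective r →
      ∀ Q : Set (F.obj B), IsOpen Q → (Q ∩ O).Nonempty →
      (Q ∩ interior {b | Good F f U r b}).Nonempty := by
    intro R r hR hr Q hQ hQO
    obtain ⟨b, hbQ, hbO⟩ := hQO
    have h1 : ((Q ∩ O) ∩ F.map f '' U).Nonempty := by
      have h2 : b ∈ closure (F.map f '' U) := interior_subset hbO
      exact mem_closure_iff.1 h2 (Q ∩ O) (hQ.inter hOopen) ⟨hbQ, hbO⟩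
    obtain ⟨_, ⟨h2Q, h2O⟩, ⟨a, ha, rfl⟩⟩ := h1
    obtain ⟨V, hV1, ⟨v, hv⟩, hV3, hV4⟩ := exists_good hF hA hB hR f r hf hr
      (hU.inter ((hQ.inter hOopen).preimage (continuous_hom (F.map f)))) ⟨a, ha, h2Q, h2O⟩
    obtain ⟨a', ha', rfl⟩ := hV3 hv
    refine ⟨F.map f a', ha'.2.1, mem_interior.2 ⟨V, ?_, hV1, hv⟩⟩
    intro b hb
    exact (hV4 b hb).mono inter_subset_left
  -- the countable family
  let ι : Type := Σ n : ℕ, {r : Fin n → B // Function.Surjective r}
  have hι : Countable ι := by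
    have : ∀ n, Finite (Fin n → B) := fun n => inferInstance
    infer_instance
  let rr : ∀ i : ι, CompHaus.of (Fin i.1) ⟶ B := fun i =>
    CompHausLike.ofHom _ ⟨i.2.1, continuous_of_discreteTopology⟩
  let G : ι → Set (F.obj B) := fun i => interior {b | Good F f U (rr i) b} ∪ (closure O)ᶜ
  have hGo : ∀ i, IsOpen (G i) := fun i => isOpen_interior.union isClosed_closure.isOpen_compl
  have hGd : ∀ i, Dense (G i) := by
    intro i
    rw [dense_iff_inter_open]
    rintro Q hQ ⟨b, hb⟩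
    by_cases hQO : (Q ∩ O).Nonempty
    · obtain ⟨x, hx1, hx2⟩ := hdense _ (rr i) (by change Finite (Fin i.1); infer_instance) i.2.2
        Q hQ hQO
      exact ⟨x, hx1, Or.inl hx2⟩
    · refine ⟨b, hb, Or.inr ?_⟩
      intro hbO
      exact hQO (mem_closure_iff.1 hbO Q hQ hb)
  have hbaire : BaireSpace (F.obj B) := @baire _ _ (F.obj B).is_compact (F.obj B).is_hausdorff
  have hD := dense_iInter_of_isOpen hGo hGd
  -- good points are good for all quotients
  have hgood : ∀ e : F.obj Z, F.map p e ∈ ⋂ i, G i → F.map p e ∈ O →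
      ∃ d : F.obj (pb f p), F.map (pbSnd f p) d = e ∧ F.map (pbFst f p) d ∈ closure U := by
    intro e he1 he2
    apply exists_lift_of_good hlim hB f p
    intro j
    have hfin : Finite ((SQ p).obj j) := finite_SQ p j
    obtain ⟨n, ⟨ε⟩⟩ := Finite.exists_equiv_fin ((SQ p).obj j)
    have hdisc : DiscreteTopology ((SQ p).obj j) := @Finite.instDiscreteTopology _ _
        (@T2Space.t1Space _ _ ((SQ p).obj j).is_hausdorff) hfin
    have hrs : Function.Surjective (rQ p j) := by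
      intro b
      obtain ⟨z, rfl⟩ := hp b
      exact ⟨leg (SQcone p) j z, rQ_proj p j z⟩
    let i : ι := ⟨n, ⟨fun k => rQ p j (ε.symm k), hrs.comp ε.symm.surjective⟩⟩
    let εm : (SQ p).obj j ⟶ CompHaus.of (Fin n) :=
      ConcreteCategory.ofHom (C := CompHaus.{0}) (X := (SQ p).obj j) (Y := CompHaus.of (Fin n))
        ⟨ε, continuous_of_discreteTopology⟩
    let δm : CompHaus.of (Fin n) ⟶ (SQ p).obj j :=
      ConcreteCategory.ofHom (C := CompHaus.{0}) (X := CompHaus.of (Fin n)) (Y := (SQ p).obj j)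
        ⟨ε.symm, continuous_of_discreteTopology⟩
    have h1 : Good F f U (rr i) (F.map p e) := by
      have h2 := mem_iInter.1 he1 i
      rcases h2 with h2 | h2
      · exact interior_subset h2
      · exact absurd (subset_closure he2) h2
    refine h1.transfer εm δm ?_ ?_ ?_
    · refine ConcreteCategory.hom_ext _ _ (fun x => ?_)
      exact ε.symm_apply_apply x
    · refine ConcreteCategory.hom_ext _ _ (fun x => ?_)
      exact congrArg (rQ p j) (ε.symm_apply_apply x)
    · intro x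
      rfl
  -- the closed set
  let Cl : Set (F.obj Z) := F.map (pbSnd f p) '' (F.map (pbFst f p) ⁻¹' closure U)
  have hCl : IsClosed Cl := by
    apply IsCompact.isClosed
    apply IsCompact.image _ (continuous_hom (F.map (pbSnd f p)))
    exact (isClosed_closure.preimage (continuous_hom (F.map (pbFst f p)))).isCompact
  refine ⟨O, hOopen, hOne, ?_⟩
  intro e he
  by_contra hcon
  have heCl : e ∉ Cl := by
    rintro ⟨d, hd1, hd2⟩
    exact hcon ⟨d, hd2, hd1⟩
  have hQopen : IsOpen (F.map p ⁻¹' O ∩ Clᶜ) :=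
    (hOopen.preimage (continuous_hom (F.map p))).inter hCl.isOpen_compl
  obtain ⟨j, Qj, hQj, hej, hQjsub⟩ := exists_open_stage_F hlim (SQ_isLimit p) hQopen
    (x := e) ⟨he, heCl⟩
  have hrs : Function.Surjective (rQ p j) := by
    intro b
    obtain ⟨z, rfl⟩ := hp b
    exact ⟨leg (SQcone p) j z, rQ_proj p j z⟩
  obtain ⟨V, hV1, hV2, hV3, -⟩ := exists_good hF (finite_SQ p j) hB hB (rQ p j) (𝟙 B) hrs
    Function.surjective_id hQj ⟨_, hej⟩
  obtain ⟨b, hbV, hbG⟩ := hD.inter_open_nonempty V hV1 hV2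
  obtain ⟨c, hc, rfl⟩ := hV3 hbV
  obtain ⟨e', rfl⟩ := hepi _ _ (leg (SQcone p) j) (leg_surjective p j) c
  have he' := hQjsub hc
  have h3 : F.map (rQ p j) (F.map (leg (SQcone p) j) e') = F.map p e' := by
    rw [← map_comp_apply, rQ_comp]
    rfl
  rw [h3] at hbG
  obtain ⟨d, hd1, hd2⟩ := hgood e' hbG he'.1
  exact he'.2 ⟨d, hd2, hd1⟩

end Pool.Agent.R818.Functors.Skel
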