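import Pool.Agent.R818.Functors.Skel2

/-!
# Finitely square-skeletal functors are skeletal
-/

set_option autoImplicit false

open CategoryTheory Topology Set

namespace Pool.Agent.R818.Functors.Skel

lemma discrete_of_finite (X : Type) [TopologicalSpace X] [T2Space X] [Finite X] :
    DiscreteTopology X := inferInstance

lemma discrete_of_finite' (X : CompHaus.{0}) (h : Finite X) : DiscreteTopology X :=
  @discrete_of_finite X _ X.is_hausdorff h

/-- maps out of finite spaces -/
def ofFin {X Y : CompHaus.{0}} (h : Finite X) (f : X → Y) : X ⟶ Y :=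
  haveI := discrete_of_finite' X h
  ConcreteCategory.ofHom (C := CompHaus.{0}) (X := X) (Y := Y) ⟨f, continuous_of_discreteTopology⟩

lemma ofFin_apply {X Y : CompHaus.{0}} (h : Finite X) (f : X → Y) (x : X) : ofFin h f x = f x := rfl

/-- maps given by continuous functions -/
def homMk {X Y : CompHaus.{0}} (f : X → Y) (h : Continuous f) : X ⟶ Y :=
  ConcreteCategory.ofHom (C := CompHaus.{0}) (X := X) (Y := Y) ⟨f, h⟩

lemma homMk_apply {X Y : CompHaus.{0}} (f : X → Y) (h : Continuous f) (x : X) :
    homMk f h x = f x := rfl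

/-- the map to a point -/
def toPt (Z : CompHaus.{0}) : Z ⟶ CompHaus.of PUnit.{1} := homMk (fun _ => PUnit.unit) continuous_const

/-- Step B: irreducible maps -/
theorem stepB {F : CFun} (hlim : CommutesWithLimits F) (hpre : PreservesFinitePreimages F)
    {Z Y : CompHaus.{0}} [TotallyDisconnectedSpace Z] (k : Z ⟶ Y)
    (hk : Function.Surjective k)
    (hirr : ∀ U : Set Z, IsOpen U → U.Nonempty →
      ∃ V : Set Y, IsOpen V ∧ V.Nonempty ∧ k ⁻¹' V ⊆ U)
    {U : Set (F.obj Z)} (hU : IsOpen U) (hne : U.Nonempty) :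
    ∃ V : Set (F.obj Y), IsOpen V ∧ V.Nonempty ∧ F.map k ⁻¹' V ⊆ U := by
  obtain ⟨e0, he0⟩ := hne
  obtain ⟨j, Uj, hUj, hej, hUsub⟩ := exists_open_stage_F hlim (SQ_isLimit (toPt Z)) hU he0
  let Zj := (SQ (toPt Z)).obj j
  let q : Z ⟶ Zj := leg (SQcone (toPt Z)) j
  have hqs : Function.Surjective q := leg_surjective (toPt Z) j
  have hfin : Finite Zj := finite_SQ (toPt Z) j
  have hdisc : DiscreteTopology Zj := discrete_of_finite' Zj hfin
  have hchoose : ∀ x : Zj, ∃ V : Set Y, IsOpen V ∧ V.Nonempty ∧ k ⁻¹' V ⊆ q ⁻¹' {x} := by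
    intro x
    apply hirr
    · exact (isOpen_discrete _).preimage (continuous_hom q)
    · obtain ⟨z, hz⟩ := hqs x
      exact ⟨z, hz⟩
  choose V hVo hVne hVsub using hchoose
  choose y hy using hVne
  let yb : Zj ⟶ Y := ofFin hfin y
  have hyinj : Function.Injective yb := by
    intro x x' hxx
    obtain ⟨z, hz⟩ := hk (y x)
    have h1 : q z = x := hVsub x (show k z ∈ V x by rw [hz]; exact hy x)
    have h2 : q z = x' := hVsub x' (show k z ∈ V x' by
      rw [hz, show y x = y x' from hxx]
      exact hy x')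
    exact h1.symm.trans h2
  have hkq : ∀ z : Z, ∀ x : Zj, k z = y x → q z = x := fun z x h =>
    hVsub x (show k z ∈ V x by rw [h]; exact hy x)
  let Bs : Set Z := k ⁻¹' (range yb)
  have hBs : IsClosed Bs := by
    apply IsClosed.preimage (continuous_hom k)
    exact (isCompact_range (continuous_hom yb)).isClosed
  let D : Square :=
    { Xt := sub Z Bs hBs
      Yt := Z
      X := Zj
      Y := Y
      ft := incl Z Bs hBs
      f := yb
      pX := incl Z Bs hBs ≫ q
      pY := k
      comm := by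
        refine ConcreteCategory.hom_ext _ _ (fun z => ?_)
        change k z.1 = yb (q z.1)
        obtain ⟨x, hx⟩ := z.2
        rw [hkq z.1 x hx.symm]
        exact hx.symm }
  have hDb : D.Bicommutative := by
    intro x
    ext z
    constructor
    · rintro ⟨w, hw, rfl⟩
      change k w.1 = yb x
      obtain ⟨x', hx'⟩ := w.2
      have h1 : q w.1 = x' := hkq w.1 x' hx'.symm
      have h2 : q w.1 = x := hw
      rw [← h2, h1]
      exact hx'.symm
    · intro hz
      have hz' : k z = yb x := hz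
      exact ⟨⟨z, x, hz'.symm⟩, hkq z x hz', rfl⟩
  have hinc : Function.Injective (incl Z Bs hBs) := Subtype.val_injective
  have hFD := hpre D hfin hyinj hinc hDb (F.map q e0)
  have hkey : ∀ e : F.obj Z, F.map k e = F.map yb (F.map q e0) → e ∈ U := by
    intro e he
    have h1 : e ∈ (D.map F).pY ⁻¹' {(D.map F).f (F.map q e0)} := he
    rw [← hFD] at h1
    obtain ⟨e', he', rfl⟩ := h1
    apply hUsub
    have h2 : F.map (incl Z Bs hBs ≫ q) e' = F.map q e0 := he'
    rw [map_comp_apply] at h2
    change F.map q (F.map (incl Z Bs hBs) e') ∈ Uj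
    rw [h2]
    exact hej
  refine ⟨(F.map k '' Uᶜ)ᶜ, ?_, ⟨F.map yb (F.map q e0), ?_⟩, ?_⟩
  · exact (hU.isClosed_compl.isCompact.image (continuous_hom (F.map k))).isClosed.isOpen_compl
  · rintro ⟨e, he, he'⟩
    exact he (hkey e he')
  · intro e he
    by_contra heU
    exact he ⟨e, heU, rfl⟩

theorem zorn_cover {A D : Type} [TopologicalSpace A] [TopologicalSpace D] [T2Space A]
    [CompactSpace D] {X : D → A} (hc : Continuous X) (hs : Function.Surjective X) :
    ∃ E : Set D, CompactSpace E ∧ X '' E = univ ∧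
      ∀ E₀ : Set E, E₀ ≠ univ → IsClosed E₀ → E.domRestrict X '' E₀ ≠ univ :=
  exists_compact_surjective_zorn_subset hc hs

/-- projective covers with irreducible restrictions -/
theorem exists_irr (Y : CompHaus.{0}) : ∃ (D : CompHaus.{0}) (k : D ⟶ Y) (E : Set D)
    (hE : IsClosed E), Projective D ∧ TotallyDisconnectedSpace D ∧
    Function.Surjective (incl D E hE ≫ k) ∧
    ∀ U : Set (sub D E hE), IsOpen U → U.Nonempty →
      ∃ V : Set Y, IsOpen V ∧ V.Nonempty ∧ (incl D E hE ≫ k) ⁻¹' V ⊆ U := by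
  let P := CompHaus.projectivePresentation Y
  let D : CompHaus.{0} := CompHaus.of (Ultrafilter Y)
  let k : D ⟶ Y := P.f
  have hks : Function.Surjective k := (CompHaus.epi_iff_surjective _).1 P.epi
  obtain ⟨E, hEc, hEs, hEmin⟩ := @zorn_cover Y D _ _ Y.is_hausdorff D.is_compact k
    (continuous_hom k) hks
  have hE : IsClosed E := (isCompact_iff_compactSpace.2 hEc).isClosed
  refine ⟨D, k, E, hE, CompHaus.projective_ultrafilter Y, ?_, ?_, ?_⟩
  · change TotallyDisconnectedSpace (Ultrafilter Y)
    infer_instance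
  · intro y
    have hy : y ∈ k '' E := by rw [hEs]; trivial
    obtain ⟨x, hx, rfl⟩ := hy
    exact ⟨⟨x, hx⟩, rfl⟩
  · intro U hU hne
    have hcl : IsClosed Uᶜ := hU.isClosed_compl
    have h1 := hEmin Uᶜ (by
      intro h
      obtain ⟨x, hx⟩ := hne
      have h2 : x ∈ Uᶜ := by
        change x ∈ (Uᶜ : Set (sub D E hE))
        rw [show (Uᶜ : Set (sub D E hE)) = univ from h]
        trivial
      exact h2 hx) hcl
    have h2 : IsClosed ((incl D E hE ≫ k) '' Uᶜ) :=
      (hcl.isCompact.image (continuous_hom (incl D E hE ≫ k))).isClosed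
    refine ⟨((incl D E hE ≫ k) '' Uᶜ)ᶜ, h2.isOpen_compl, ?_, ?_⟩
    · exact nonempty_compl.2 h1
    · intro z hz
      by_contra hzU
      exact hz ⟨z, hzU, rfl⟩

/-- closed relations with projective domain have continuous selections -/
theorem selection {D K : CompHaus.{0}} (hD : Projective D) (C : Set (D × K)) (hC : IsClosed C)
    (hne : ∀ z, ∃ x, (z, x) ∈ C) : ∃ s : D ⟶ K, ∀ z, (z, s z) ∈ C := by
  let W : CompHaus.{0} := sub (CompHaus.of (D × K)) C hC
  let π : W ⟶ D := incl (CompHaus.of (D × K)) C hC ≫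
    (CompHausLike.ofHom _ ⟨Prod.fst, continuous_fst⟩ : CompHaus.of (D × K) ⟶ D)
  let ρ : W ⟶ K := incl (CompHaus.of (D × K)) C hC ≫
    (CompHausLike.ofHom _ ⟨Prod.snd, continuous_snd⟩ : CompHaus.of (D × K) ⟶ K)
  have hπ : Epi π := by
    rw [CompHaus.epi_iff_surjective]
    intro z
    obtain ⟨x, hx⟩ := hne z
    exact ⟨⟨(z, x), hx⟩, rfl⟩
  let σ : D ⟶ W := Projective.factorThru (𝟙 D) π
  have hσ : σ ≫ π = 𝟙 D := Projective.factorThru_comp _ _
  refine ⟨σ ≫ ρ, fun z => ?_⟩
  have h1 : π (σ z) = z := by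
    have := ConcreteCategory.congr_hom hσ z
    exact this
  have h2 := (σ z).2
  have h3 : ((σ z).1 : D × K) = (z, (σ ≫ ρ) z) := Prod.ext h1 rfl
  rw [← h3]
  exact h2

theorem shrink {X : Type} [TopologicalSpace X] [CompactSpace X] [T2Space X] {U : Set X} {x : X}
    (hU : U ∈ 𝓝 x) : ∃ t ∈ 𝓝 x, IsClosed t ∧ t ⊆ U := exists_mem_nhds_isClosed_subset hU

/-- the main step: the image of a nonempty open set contains a nonempty open set -/
theorem exists_open_in_image {F : CFun} (hepi : Epimorphic F) (hlim : CommutesWithLimits F)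
    (hpre : PreservesFinitePreimages F) (hF : FinitelySquareSkeletal F) {X Y : CompHaus.{0}}
    (f : X ⟶ Y) (hfs : Function.Surjective f) (hfo : IsOpenMap f) {U : Set (F.obj X)}
    (hU : IsOpen U) (hne : U.Nonempty) :
    ∃ V : Set (F.obj Y), IsOpen V ∧ V.Nonempty ∧ V ⊆ F.map f '' U := by
  classical
  -- the cover of `X`
  obtain ⟨DX, kX, EX, hEX, -, hDXtd, hkXs, hkXirr⟩ := exists_irr X
  let EXs : CompHaus.{0} := sub DX EX hEX
  let q : EXs ⟶ X := incl DX EX hEX ≫ kX
  have hEXtd : TotallyDisconnectedSpace EXs := by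
    change TotallyDisconnectedSpace EX
    infer_instance
  have hq : Function.Surjective q := hkXs
  have hFq : Function.Surjective (F.map q) := hepi _ _ q hq
  have hU1 : IsOpen (F.map q ⁻¹' U) := hU.preimage (continuous_hom (F.map q))
  obtain ⟨e0, he0⟩ : (F.map q ⁻¹' U).Nonempty := hne.preimage hFq
  obtain ⟨j, Uj, hUj, hej, hUsub⟩ := exists_open_stage_F hlim (SQ_isLimit (toPt EXs)) hU1 he0
  let T : CompHaus.{0} := (SQ (toPt EXs)).obj j
  let qT : EXs ⟶ T := leg (SQcone (toPt EXs)) j
  have hqTs : Function.Surjective qT := leg_surjective (toPt EXs) j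
  have hTfin : Finite T := finite_SQ (toPt EXs) j
  have hTdisc : DiscreteTopology T := discrete_of_finite' T hTfin
  -- shrink the open set
  obtain ⟨N, hN, hNc, hNsub⟩ := @shrink (F.obj T) _ (F.obj T).is_compact (F.obj T).is_hausdorff
    _ _ (hUj.mem_nhds hej)
  obtain ⟨UT, hUTN, hUT, heT⟩ := mem_nhds_iff.1 hN
  have hUTcl : closure UT ⊆ Uj := (closure_minimal hUTN hNc).trans hNsub
  -- the cover of `Y`
  obtain ⟨D, kD, E, hE, hDproj, hDtd, hkDs, hkDirr⟩ := exists_irr Y
  let Z : CompHaus.{0} := sub D E hE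
  let k : Z ⟶ Y := incl D E hE ≫ kD
  have hZtd : TotallyDisconnectedSpace Z := by
    change TotallyDisconnectedSpace E
    infer_instance
  -- the pieces
  have hpieces : ∀ t : T, ∃ (z : Z) (Dt : Set D), IsClopen Dt ∧ z.1 ∈ Dt ∧
      ∀ w ∈ Dt, ∃ x : EXs, f (q x) = kD w ∧ qT x = t := by
    intro t
    obtain ⟨V, hVo, ⟨v, hv⟩, hVsub⟩ := hkXirr (qT ⁻¹' {t})
      ((isOpen_discrete _).preimage (continuous_hom qT)) (by
        obtain ⟨x, hx⟩ := hqTs t
        exact ⟨x, hx⟩)
    have hGo : IsOpen (f '' V) := hfo V hVo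
    obtain ⟨z, hz⟩ := hkDs (f v)
    have hz' : kD z.1 ∈ f '' V := ⟨v, hv, hz.symm⟩
    obtain ⟨Dt, hDt, hzDt, hDtsub⟩ := compact_exists_isClopen_in_isOpen
      (hGo.preimage (continuous_hom kD)) hz'
    refine ⟨z, Dt, hDt, hzDt, ?_⟩
    intro w hw
    obtain ⟨v', hv', hv''⟩ := hDtsub hw
    obtain ⟨x, hx⟩ := hq v'
    refine ⟨x, by rw [hx, hv''], ?_⟩
    apply hVsub
    change q x ∈ V
    rw [hx]
    exact hv'
  choose zt Dt hDtc hzt hDtl using hpieces
  -- the lifts
  have hsinf : ∃ s : D ⟶ EXs, ∀ z, f (q (s z)) = kD z := by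
    apply selection hDproj {w : D × EXs | f (q w.2) = kD w.1}
    · exact isClosed_eq ((continuous_hom f).comp ((continuous_hom q).comp continuous_snd))
        ((continuous_hom kD).comp continuous_fst)
    · intro z
      obtain ⟨x, hx⟩ := hfs (kD z)
      obtain ⟨y, hy⟩ := hq x
      exact ⟨y, by change f (q y) = kD z; rw [hy, hx]⟩
  obtain ⟨sinf, hsinf⟩ := hsinf
  have hst : ∀ t : T, ∃ s : D ⟶ EXs, ∀ z ∈ Dt t, f (q (s z)) = kD z ∧ qT (s z) = t := by
    intro t
    have h1 : ∃ s : D ⟶ EXs, ∀ z, (z, s z) ∈ {w : D × EXs | w.1 ∈ (Dt t)ᶜ ∨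
        (f (q w.2) = kD w.1 ∧ qT w.2 = t)} := by
      apply selection hDproj
      · apply IsClosed.union
        · exact (hDtc t).compl.isClosed.preimage continuous_fst
        · apply IsClosed.inter
          · exact isClosed_eq ((continuous_hom f).comp ((continuous_hom q).comp continuous_snd))
              ((continuous_hom kD).comp continuous_fst)
          · exact isClosed_eq ((continuous_hom qT).comp continuous_snd) continuous_const
      · intro z
        by_cases hz : z ∈ Dt t
        · obtain ⟨x, hx⟩ := hDtl t z hz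
          exact ⟨x, Or.inr hx⟩
        · exact ⟨sinf z, Or.inl hz⟩
    obtain ⟨s, hs⟩ := h1
    exact ⟨s, fun z hz => (hs z).resolve_left fun h => h hz⟩
  choose st hst using hst
  -- the finite spaces
  let B0 : CompHaus.{0} := CompHaus.of (T × (T → Bool))
  have hB0fin : Finite B0 := by
    change Finite (T × (T → Bool))
    infer_instance
  let p0 : Z ⟶ B0 := homMk (X := Z) (Y := B0)
    (fun z => ((qT (sinf z.1), fun t => (Dt t).boolIndicator z.1) : T × (T → Bool))) (by
      have h1 : Continuous (fun z : Z => qT (sinf z.1)) :=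
        (continuous_hom qT).comp ((continuous_hom sinf).comp continuous_subtype_val)
      have h2 : Continuous (fun z : Z => fun t => (Dt t).boolIndicator z.1) := by
        apply continuous_pi
        intro t
        exact ((continuous_boolIndicator_iff_isClopen (Dt t)).2 (hDtc t)).comp
          continuous_subtype_val
      exact h1.prodMk h2)
  have hrange : IsClosed (range p0) := (isCompact_range (continuous_hom p0)).isClosed
  let B : CompHaus.{0} := sub B0 (range p0) hrange
  have hBfin : Finite B := by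
    change Finite (range p0)
    have : Finite B0 := hB0fin
    infer_instance
  have hBdisc : DiscreteTopology B := discrete_of_finite' B hBfin
  let p : Z ⟶ B := homMk (X := Z) (Y := B) (fun z => (⟨p0 z, z, rfl⟩ : range p0))
    ((continuous_hom p0).subtype_mk _)
  have hps : Function.Surjective p := by
    rintro ⟨b, z, hz⟩
    exact ⟨z, Subtype.ext hz⟩
  let As : Set (T × B) := {x | x.1 = (x.2.1 : T × (T → Bool)).1 ∨
    (x.2.1 : T × (T → Bool)).2 x.1 = true}
  have hAs : IsClosed As := by
    have : DiscreteTopology (T × B) := inferInstance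
    exact isClosed_discrete _
  let A : CompHaus.{0} := sub (CompHaus.of (T × B)) As hAs
  have hAfin : Finite A := by
    change Finite As
    have : Finite (T × B) := inferInstance
    infer_instance
  have hAdisc : DiscreteTopology A := discrete_of_finite' A hAfin
  let f' : A ⟶ B := ofFin hAfin (fun a => a.1.2)
  let g : A ⟶ T := ofFin hAfin (fun a => a.1.1)
  have hf's : Function.Surjective f' := by
    intro b
    exact ⟨⟨((b.1 : T × (T → Bool)).1, b), Or.inl rfl⟩, rfl⟩
  have hgs : Function.Surjective g := by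
    intro t
    refine ⟨⟨(t, p (zt t)), Or.inr ?_⟩, rfl⟩
    exact ((Dt t).mem_iff_boolIndicator (zt t).1).1 (hzt t)
  -- the map from the pullback
  let P : CompHaus.{0} := pb f' p
  have hHc : Continuous (fun y : A × Z => if y.2.1 ∈ Dt (g y.1) then st (g y.1) y.2.1
      else sinf y.2.1) := by
    rw [continuous_prod_of_discrete_left]
    intro a
    apply Continuous.if
    · intro z hz
      have hcl : IsClopen {z : Z | z.1 ∈ Dt (g a)} :=
        (hDtc (g a)).preimage continuous_subtype_val
      rw [hcl.frontier_eq] at hz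
      exact absurd hz (notMem_empty _)
    · exact (continuous_hom (st (g a))).comp continuous_subtype_val
    · exact (continuous_hom sinf).comp continuous_subtype_val
  let s' : P ⟶ EXs := homMk (X := P) (Y := EXs)
    (fun y => if (pbSnd f' p y).1 ∈ Dt (g (pbFst f' p y)) then
      st (g (pbFst f' p y)) (pbSnd f' p y).1 else sinf (pbSnd f' p y).1)
    (hHc.comp ((continuous_hom (pbFst f' p)).prodMk (continuous_hom (pbSnd f' p))))
  have hs'1 : ∀ y : P, f (q (s' y)) = k (pbSnd f' p y) := by
    intro y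
    change f (q (if (pbSnd f' p y).1 ∈ Dt (g (pbFst f' p y)) then
      st (g (pbFst f' p y)) (pbSnd f' p y).1 else sinf (pbSnd f' p y).1)) =
      kD (pbSnd f' p y).1
    split_ifs with h
    · exact (hst _ _ h).1
    · exact hsinf _
  have hs'2 : ∀ y : P, qT (s' y) = g (pbFst f' p y) := by
    intro y
    change qT (if (pbSnd f' p y).1 ∈ Dt (g (pbFst f' p y)) then
      st (g (pbFst f' p y)) (pbSnd f' p y).1 else sinf (pbSnd f' p y).1) = g (pbFst f' p y)
    split_ifs with h
    · exact (hst _ _ h).2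
    · have h1 : f' (pbFst f' p y) = p (pbSnd f' p y) := pb_comm_apply f' p y
      have h2 : (pbFst f' p y).1.2.1 = p0 (pbSnd f' p y) := congrArg Subtype.val h1
      rcases (pbFst f' p y).2 with h3 | h3
      · have h4 : g (pbFst f' p y) = ((pbFst f' p y).1.2.1 : T × (T → Bool)).1 := h3
        rw [h4, h2]
        rfl
      · exfalso
        apply h
        have h4 : ((pbFst f' p y).1.2.1 : T × (T → Bool)).2 (g (pbFst f' p y)) = true := h3
        rw [h2] at h4
        exact ((Dt (g (pbFst f' p y))).mem_iff_boolIndicator (pbSnd f' p y).1).2 h4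
  -- apply Lemma C
  let U' : Set (F.obj A) := F.map g ⁻¹' UT
  have hU' : IsOpen U' := hUT.preimage (continuous_hom (F.map g))
  have hU'ne : U'.Nonempty := Set.Nonempty.preimage ⟨_, heT⟩ (hepi _ _ g hgs)
  obtain ⟨O, hO, hOne, hOlift⟩ := lemmaC hepi hlim hF hAfin hBfin f' hf's p hps hU' hU'ne
  obtain ⟨V, hV, hVne, hVsub⟩ := stepB hlim hpre k hkDs hkDirr
    (hO.preimage (continuous_hom (F.map p))) (hOne.preimage (hepi _ _ p hps))
  refine ⟨V, hV, hVne, ?_⟩
  intro v hv
  obtain ⟨e, rfl⟩ := hepi _ _ k hkDs v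
  obtain ⟨d, hd1, hd2⟩ := hOlift e (hVsub hv)
  refine ⟨F.map q (F.map s' d), ?_, ?_⟩
  · apply hUsub
    change F.map qT (F.map s' d) ∈ Uj
    apply hUTcl
    have h1 : s' ≫ qT = pbFst f' p ≫ g := ConcreteCategory.hom_ext _ _ hs'2
    rw [← map_comp_apply, h1, map_comp_apply]
    exact (continuous_hom (F.map g)).closure_preimage_subset UT hd2
  · have h1 : s' ≫ q ≫ f = pbSnd f' p ≫ k := ConcreteCategory.hom_ext _ _ hs'1
    rw [← map_comp_apply, ← map_comp_apply, h1, map_comp_apply, hd1]

/-- a criterion for skeletal maps -/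
theorem skeletalMap_of {X Y : Type} [TopologicalSpace X] [TopologicalSpace Y] {f : X → Y}
    (hf : Continuous f) (h : ∀ U : Set X, IsOpen U → U.Nonempty →
      ∃ V : Set Y, IsOpen V ∧ V.Nonempty ∧ V ⊆ f '' U) : SkeletalMap f := by
  intro A hA
  by_contra hcon
  have hne : (interior (closure (f ⁻¹' A))).Nonempty := by
    rw [nonempty_iff_ne_empty]
    exact hcon
  obtain ⟨V, hV1, ⟨v, hv⟩, hV3⟩ := h _ isOpen_interior hne
  have hVA : V ⊆ closure A := by
    intro y hy
    obtain ⟨x, hx, rfl⟩ := hV3 hy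
    exact hf.closure_preimage_subset A (interior_subset hx)
  have : v ∈ interior (closure A) := mem_interior.2 ⟨V, hVA, hV1, hv⟩
  rw [hA] at this
  exact this

/-- the main theorem -/
theorem skeletal {F : CFun} (hepi : Epimorphic F) (hlim : CommutesWithLimits F)
    (hpre : PreservesFinitePreimages F) (hF : FinitelySquareSkeletal F) : SkeletalFunctor F := by
  intro X Y f hfs hfo
  exact skeletalMap_of (continuous_hom (F.map f)) fun U hU hne =>
    exists_open_in_image hepi hlim hpre hF f hfs hfo hU hne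

end Pool.Agent.R818.Functors.Skel
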