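import Pool.Agent.R818.Functors.Defs

/-!
# Weight and continuous images
-/

set_option autoImplicit false

open CategoryTheory Topology Set Cardinal

namespace Pool.Agent.R818.Functors

theorem exists_basis (X : Type) [TopologicalSpace X] :
    ∃ B : Set (Set X), TopologicalSpace.IsTopologicalBasis B ∧ #B = weight X := by
  have h : {κ | ∃ B : Set (Set X), TopologicalSpace.IsTopologicalBasis B ∧ #B = κ}.Nonempty :=
    ⟨_, _, TopologicalSpace.isTopologicalBasis_opens, rfl⟩
  exact csInf_mem h

theorem weight_le_of_basis {X : Type} [TopologicalSpace X] {B : Set (Set X)}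
    (hB : TopologicalSpace.IsTopologicalBasis B) : weight X ≤ #B :=
  csInf_le' ⟨B, hB, rfl⟩

theorem aleph0_le_weight (X : Type) [TopologicalSpace X] [T2Space X] [Infinite X] :
    ℵ₀ ≤ weight X := by
  obtain ⟨B, hB, hBw⟩ := exists_basis X
  rw [← hBw, aleph0_le_mk_iff]
  by_contra hfin
  rw [not_infinite_iff_finite] at hfin
  have hinj : Function.Injective (fun x : X => {U : B | x ∈ U.1}) := by
    intro x y hxy
    apply hB.eq_iff.2
    intro U hU
    have := congrArg (fun T : Set B => (⟨U, hU⟩ : B) ∈ T) hxy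
    exact iff_of_eq this
  exact not_finite_iff_infinite.2 ‹Infinite X› (Finite.of_injective _ hinj)

theorem mk_finset_le (α : Type) : #(Finset α) ≤ max #α ℵ₀ := by
  rcases finite_or_infinite α with h | h
  · exact (le_max_right _ _).trans' (Cardinal.mk_le_aleph0 (α := Finset α))
  · rw [Cardinal.mk_finset_of_infinite]
    exact le_max_left _ _

theorem basis_of_surj {Z K : Type} [TopologicalSpace Z] [CompactSpace Z] [TopologicalSpace K]
    [T2Space K] {q : Z → K} (hq : Continuous q) (hs : Function.Surjective q) {B : Set (Set Z)}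
    (hB : TopologicalSpace.IsTopologicalBasis B) : weight K ≤ max #B ℵ₀ := by
  let g : Finset B → Set K := fun s => (q '' (⋃ U ∈ s, (U : Set Z))ᶜ)ᶜ
  have hg : TopologicalSpace.IsTopologicalBasis (range g) := by
    apply TopologicalSpace.isTopologicalBasis_of_isOpen_of_nhds
    · rintro _ ⟨s, rfl⟩
      have h1 : IsOpen (⋃ U ∈ s, (U : Set Z)) := isOpen_biUnion fun U _ => hB.isOpen U.2
      exact (h1.isClosed_compl.isCompact.image hq).isClosed.isOpen_compl
    · intro x V hx hV
      have hc : IsCompact (q ⁻¹' {x}) := (isClosed_singleton.preimage hq).isCompact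
      have hcov : q ⁻¹' {x} ⊆ ⋃ U : {U : B // (U : Set Z) ⊆ q ⁻¹' V}, (U.1 : Set Z) := by
        intro z hz
        have hz' : z ∈ q ⁻¹' V := by
          change q z ∈ V
          rw [show q z = x from hz]
          exact hx
        obtain ⟨U, hU, hzU, hUV⟩ := hB.exists_subset_of_mem_open hz' (hV.preimage hq)
        exact mem_iUnion.2 ⟨⟨⟨U, hU⟩, hUV⟩, hzU⟩
      obtain ⟨t, ht⟩ := hc.elim_finite_subcover _ (fun U => hB.isOpen U.1.2) hcov
      classical
      refine ⟨g (t.image Subtype.val), ⟨_, rfl⟩, ?_, ?_⟩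
      · rintro ⟨z, hz, hzx⟩
        apply hz
        have := ht (show z ∈ q ⁻¹' {x} from hzx)
        obtain ⟨U, hU, hzU⟩ := mem_iUnion₂.1 this
        exact mem_iUnion₂.2 ⟨U.1, Finset.mem_image_of_mem _ hU, hzU⟩
      · intro y hy
        obtain ⟨z, rfl⟩ := hs y
        have hz : z ∈ ⋃ U ∈ t.image Subtype.val, (U : Set Z) := by
          by_contra hz
          exact hy ⟨z, hz, rfl⟩
        obtain ⟨U, hU, hzU⟩ := mem_iUnion₂.1 hz
        obtain ⟨U', -, rfl⟩ := Finset.mem_image.1 hU
        exact U'.2 hzU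
  refine (weight_le_of_basis hg).trans ?_
  exact (Cardinal.mk_range_le).trans (mk_finset_le B)

theorem weight_le_of_isInducing {X K : Type} [TopologicalSpace X] [TopologicalSpace K] {e : X → K}
    (he : IsInducing e) : weight X ≤ weight K := by
  obtain ⟨B, hB, hBw⟩ := exists_basis K
  rw [← hBw]
  exact (weight_le_of_basis (hB.isInducing he)).trans Cardinal.mk_image_le

theorem weight_prod_le (X Y : Type) [TopologicalSpace X] [TopologicalSpace Y] (κ : Cardinal.{0})
    (hκ : ℵ₀ ≤ κ) (hX : weight X ≤ κ) (hY : weight Y ≤ κ) : weight (X × Y) ≤ κ := by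
  obtain ⟨B, hB, hBw⟩ := exists_basis X
  obtain ⟨C, hC, hCw⟩ := exists_basis Y
  refine (weight_le_of_basis (hB.prod hC)).trans ?_
  refine (Cardinal.mk_image2_le).trans ?_
  rw [hBw, hCw]
  exact (mul_le_mul' hX hY).trans (Cardinal.mul_eq_self hκ).le

theorem weight_le_aleph0 (X : Type) [TopologicalSpace X] [Finite X] : weight X ≤ ℵ₀ := by
  obtain ⟨B, hB, hBw⟩ := exists_basis X
  rw [← hBw]
  have : Finite B := inferInstance
  exact Cardinal.mk_le_aleph0

theorem weight_le_of_surj {Z K : Type} [TopologicalSpace Z] [CompactSpace Z] [TopologicalSpace K]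
    [T2Space K] {q : Z → K} (hq : Continuous q) (hs : Function.Surjective q) (κ : Cardinal.{0})
    (hκ : ℵ₀ ≤ κ) (hZ : weight Z ≤ κ) : weight K ≤ κ := by
  obtain ⟨B, hB, hBw⟩ := exists_basis Z
  refine (basis_of_surj hq hs hB).trans ?_
  rw [hBw]
  exact max_le hZ hκ

end Pool.Agent.R818.Functors
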