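import Pool.Agent.R818.Functors.Defs
import Pool.Agent.R818.Functors.Quot

/-!
# Two copies of the fourth power glued along a square
-/

set_option autoImplicit false

open CategoryTheory Topology Set

namespace Pool.Agent.R818.Functors.X4

/-- fourth power -/
abbrev W (X : Type) : Type := (X × X) × (X × X)

/-- map of fourth powers -/
def wmap {X Y : Type} (f : X → Y) : W X → W Y := Prod.map (Prod.map f f) (Prod.map f f)

/-- the diagonal -/
def Dg (X : Type) : Set (W X) := {w | w.1.1 = w.1.2 ∧ w.2.1 = w.2.2}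

lemma wmap_apply {X Y : Type} (f : X → Y) (w : W X) :
    wmap f w = ((f w.1.1, f w.1.2), (f w.2.1, f w.2.2)) := rfl

lemma wmap_injective {X Y : Type} {f : X → Y} (hf : Function.Injective f) :
    Function.Injective (wmap f) := (hf.prodMap hf).prodMap (hf.prodMap hf)

lemma wmap_surjective {X Y : Type} {f : X → Y} (hf : Function.Surjective f) :
    Function.Surjective (wmap f) := (hf.prodMap hf).prodMap (hf.prodMap hf)

lemma wmap_mem {X Y : Type} (f : X → Y) {w : W X} (hw : w ∈ Dg X) : wmap f w ∈ Dg Y :=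
  ⟨congrArg f hw.1, congrArg f hw.2⟩

lemma mem_of_wmap_mem {X Y : Type} {f : X → Y} (hf : Function.Injective f) {w : W X}
    (hw : wmap f w ∈ Dg Y) : w ∈ Dg X := ⟨hf hw.1, hf hw.2⟩

lemma continuous_wmap {X Y : Type} [TopologicalSpace X] [TopologicalSpace Y] {f : X → Y}
    (hf : Continuous f) : Continuous (wmap f) := (hf.prodMap hf).prodMap (hf.prodMap hf)

lemma isOpenMap_wmap {X Y : Type} [TopologicalSpace X] [TopologicalSpace Y] {f : X → Y}
    (hf : IsOpenMap f) : IsOpenMap (wmap f) := (hf.prodMap hf).prodMap (hf.prodMap hf)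

lemma isClosed_Dg (X : Type) [TopologicalSpace X] [T2Space X] : IsClosed (Dg X) := by
  apply IsClosed.inter
  · exact isClosed_eq (by fun_prop) (by fun_prop)
  · exact isClosed_eq (by fun_prop) (by fun_prop)

/-- two copies of the fourth power -/
def G : CFun where
  obj X := CompHaus.of (W X × Bool)
  map {X Y} f := CompHausLike.ofHom _ ⟨Prod.map (wmap f) id,
    (continuous_wmap (continuous_hom f)).prodMap continuous_id⟩
  map_id X := rfl
  map_comp f g := rfl

lemma G_map {X Y : CompHaus.{0}} (f : X ⟶ Y) (w : W X) (i : Bool) :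
    G.map f ((w, i) : W X × Bool) = ((wmap f w, i) : W Y × Bool) := rfl

/-- the relation -/
def rel (X : Type) : Setoid (W X × Bool) where
  r p q := p.1 = q.1 ∧ (p.2 = q.2 ∨ p.1 ∈ Dg X)
  iseqv := by
    refine ⟨fun p => ⟨rfl, Or.inl rfl⟩, ?_, ?_⟩
    · rintro p q ⟨h1, h2⟩
      refine ⟨h1.symm, ?_⟩
      rw [← h1]
      exact h2.imp Eq.symm id
    · rintro p q r ⟨h1, h2⟩ ⟨h3, h4⟩
      refine ⟨h1.trans h3, ?_⟩
      rw [← h1] at h4
      rcases h2 with h2 | h2
      · rcases h4 with h4 | h4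
        · exact Or.inl (h2.trans h4)
        · exact Or.inr h4
      · exact Or.inr h2

/-- the closed functorial relation -/
def R : Rel G where
  r X := rel X
  closed X := by
    change IsClosed {p : (W X × Bool) × (W X × Bool) |
      p.1.1 = p.2.1 ∧ (p.1.2 = p.2.2 ∨ p.1.1 ∈ Dg X)}
    have h1 : IsClosed {p : (W X × Bool) × (W X × Bool) | p.1.1 = p.2.1} :=
      isClosed_eq (by fun_prop) (by fun_prop)
    have h2 : IsClosed {p : (W X × Bool) × (W X × Bool) | p.1.2 = p.2.2} :=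
      isClosed_eq (by fun_prop) (by fun_prop)
    have h3 : IsClosed {p : (W X × Bool) × (W X × Bool) | p.1.1 ∈ Dg X} :=
      (isClosed_Dg X).preimage (by fun_prop)
    exact h1.inter (h2.union h3)
  map {X Y} f a b h := by
    obtain ⟨h1, h2⟩ := h
    refine ⟨congrArg (wmap f) h1, ?_⟩
    rcases h2 with h2 | h2
    · exact Or.inl h2
    · exact Or.inr (wmap_mem f h2)

/-- the functor -/
def F : CFun := R.quot

/-- the elements -/
def el (X : CompHaus.{0}) (w : W X) (i : Bool) : F.obj X := R.proj X (w, i)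

lemma el_surj (X : CompHaus.{0}) (a : F.obj X) : ∃ w i, a = el X w i := by
  obtain ⟨⟨w, i⟩, h⟩ := R.proj_surjective X a
  exact ⟨w, i, h.symm⟩

lemma el_eq {X : CompHaus.{0}} {w w' : W X} {i i' : Bool} :
    el X w i = el X w' i' ↔ w = w' ∧ (i = i' ∨ w ∈ Dg X) := R.proj_eq

lemma map_el {X Y : CompHaus.{0}} (f : X ⟶ Y) (w : W X) (i : Bool) :
    F.map f (el X w i) = el Y (wmap f w) i := rfl

lemma continuous_el (X : CompHaus.{0}) : Continuous (fun p : W X × Bool => el X p.1 p.2) :=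
  R.proj_continuous X

lemma isOpen_iff {X : CompHaus.{0}} {U : Set (F.obj X)} :
    IsOpen U ↔ ∀ i, IsOpen {w : W X | el X w i ∈ U} := by
  have h1 : IsOpen U ↔ IsOpen {p : W X × Bool | el X p.1 p.2 ∈ U} :=
    (R.isQuotientMap_proj X).isOpen_preimage.symm
  rw [h1]
  constructor
  · intro h i
    exact h.preimage (Continuous.prodMk continuous_id continuous_const)
  · intro h
    have : {p : W X × Bool | el X p.1 p.2 ∈ U} = ⋃ i, {w : W X | el X w i ∈ U} ×ˢ {i} := by
      ext ⟨w, i⟩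
      simp
    rw [this]
    exact isOpen_iUnion fun i => (h i).prod (isOpen_discrete _)

theorem mono : Monomorphic F := by
  intro X Y f hf p q h
  obtain ⟨w, i, rfl⟩ := el_surj X p
  obtain ⟨w', i', rfl⟩ := el_surj X q
  rw [map_el, map_el, el_eq] at h
  rw [el_eq]
  exact ⟨wmap_injective hf h.1, h.2.imp id (mem_of_wmap_mem hf)⟩

theorem epi : Epimorphic F := by
  intro X Y f hf p
  obtain ⟨w, i, rfl⟩ := el_surj Y p
  obtain ⟨w', rfl⟩ := wmap_surjective hf w
  exact ⟨el X w' i, rfl⟩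

theorem G_commutes : CommutesWithLimits G := by
  rw [commutesWithLimits_iff]
  intro J _ _ _ S c hc s hs
  have hs' : ∀ i j (f : i ⟶ j), wmap (S.map f) (s i).1 = (s j).1 ∧ (s i).2 = (s j).2 := by
    intro i j f
    have := hs i j f
    exact ⟨congrArg Prod.fst this, congrArg Prod.snd this⟩
  obtain ⟨x1, h1, u1⟩ := thread_of_isLimit hc (fun j => (s j).1.1.1)
    (fun i j f => congrArg (fun w : W (S.obj j) => w.1.1) (hs' i j f).1)
  obtain ⟨x2, h2, u2⟩ := thread_of_isLimit hc (fun j => (s j).1.1.2)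
    (fun i j f => congrArg (fun w : W (S.obj j) => w.1.2) (hs' i j f).1)
  obtain ⟨x3, h3, u3⟩ := thread_of_isLimit hc (fun j => (s j).1.2.1)
    (fun i j f => congrArg (fun w : W (S.obj j) => w.2.1) (hs' i j f).1)
  obtain ⟨x4, h4, u4⟩ := thread_of_isLimit hc (fun j => (s j).1.2.2)
    (fun i j f => congrArg (fun w : W (S.obj j) => w.2.2) (hs' i j f).1)
  obtain ⟨j0⟩ := (inferInstance : Nonempty Jᵒᵖ)
  have hconst : ∀ j, (s j).2 = (s j0).2 := by
    intro j
    obtain ⟨k, hk1, hk2⟩ := exists_ge_ge j.unop j0.unop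
    rw [← (hs' (Opposite.op k) j (homOfLE hk1).op).2, ← (hs' (Opposite.op k) j0 (homOfLE hk2).op).2]
  refine ⟨(((x1, x2), (x3, x4)), (s j0).2), ?_, ?_⟩
  · intro j
    change ((wmap (leg c j) ((x1, x2), (x3, x4)), (s j0).2) : W (S.obj j) × Bool) = s j
    rw [wmap_apply, ← hconst j]
    change (((leg c j x1, leg c j x2), (leg c j x3, leg c j x4)), (s j).2) = s j
    rw [h1, h2, h3, h4]
    rfl
  · intro y hy
    have hy' : ∀ j, wmap (leg c j) y.1 = (s j).1 ∧ y.2 = (s j).2 := by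
      intro j
      have := hy j
      exact ⟨congrArg Prod.fst this, congrArg Prod.snd this⟩
    have e1 := u1 y.1.1.1 fun j => congrArg (fun w : W (S.obj j) => w.1.1) (hy' j).1
    have e2 := u2 y.1.1.2 fun j => congrArg (fun w : W (S.obj j) => w.1.2) (hy' j).1
    have e3 := u3 y.1.2.1 fun j => congrArg (fun w : W (S.obj j) => w.2.1) (hy' j).1
    have e4 := u4 y.1.2.2 fun j => congrArg (fun w : W (S.obj j) => w.2.2) (hy' j).1
    have e5 := (hy' j0).2
    change (((y.1.1.1, y.1.1.2), (y.1.2.1, y.1.2.2)), y.2) = (((x1, x2), (x3, x4)), (s j0).2)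
    rw [e1, e2, e3, e4, e5]

theorem lim : CommutesWithLimits F := by
  apply R.quot_commutes G_commutes
  intro J _ _ _ S c hc a b h
  have h1 : ∀ j, wmap (leg c j) a.1 = wmap (leg c j) b.1 := fun j => (h j).1
  have h2 : a.1 = b.1 := by
    have e1 := ext_of_isLimit hc (x := a.1.1.1) (y := b.1.1.1)
      fun j => congrArg (fun w : W (S.obj j) => w.1.1) (h1 j)
    have e2 := ext_of_isLimit hc (x := a.1.1.2) (y := b.1.1.2)
      fun j => congrArg (fun w : W (S.obj j) => w.1.2) (h1 j)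
    have e3 := ext_of_isLimit hc (x := a.1.2.1) (y := b.1.2.1)
      fun j => congrArg (fun w : W (S.obj j) => w.2.1) (h1 j)
    have e4 := ext_of_isLimit hc (x := a.1.2.2) (y := b.1.2.2)
      fun j => congrArg (fun w : W (S.obj j) => w.2.2) (h1 j)
    exact Prod.ext (Prod.ext e1 e2) (Prod.ext e3 e4)
  refine ⟨h2, ?_⟩
  by_cases h3 : a.2 = b.2
  · exact Or.inl h3
  · right
    have h4 : ∀ j, wmap (leg c j) a.1 ∈ Dg (S.obj j) := fun j => (h j).2.resolve_left h3
    exact ⟨ext_of_isLimit hc fun j => (h4 j).1, ext_of_isLimit hc fun j => (h4 j).2⟩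

/-- description of `F A` -/
lemma mem_FSet {X : CompHaus.{0}} {A : Set X} (hA : IsClosed A) {w : W X} {i : Bool} :
    el X w i ∈ FSet F X A hA ↔ w.1.1 ∈ A ∧ w.1.2 ∈ A ∧ w.2.1 ∈ A ∧ w.2.2 ∈ A := by
  constructor
  · rintro ⟨b, hb⟩
    obtain ⟨w', i', rfl⟩ := el_surj _ b
    rw [map_el, el_eq] at hb
    rw [← hb.1]
    exact ⟨w'.1.1.2, w'.1.2.2, w'.2.1.2, w'.2.2.2⟩
  · rintro ⟨h1, h2, h3, h4⟩
    exact ⟨el (sub X A hA) ((⟨_, h1⟩, ⟨_, h2⟩), (⟨_, h3⟩, ⟨_, h4⟩)) i, rfl⟩

theorem inter (X : CompHaus.{0}) (ι : Type) (A : ι → Set X) (hA : ∀ i, IsClosed (A i)) :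
    FSet F X (⋂ i, A i) (isClosed_iInter hA) = ⋂ i, FSet F X (A i) (hA i) := by
  ext a
  obtain ⟨w, i, rfl⟩ := el_surj X a
  rw [mem_FSet, mem_iInter]
  simp only [mem_FSet, mem_iInter]
  exact ⟨fun h k => ⟨h.1 k, h.2.1 k, h.2.2.1 k, h.2.2.2 k⟩,
    fun h => ⟨fun k => (h k).1, fun k => (h k).2.1, fun k => (h k).2.2.1, fun k => (h k).2.2.2⟩⟩

theorem preimage (X Y : CompHaus.{0}) (f : X ⟶ Y) (Z : Set Y) (hZ : IsClosed Z) :
    (F.map f) ⁻¹' (FSet F Y Z hZ) = FSet F X (f ⁻¹' Z) (hZ.preimage (continuous_hom f)) := by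
  ext a
  obtain ⟨w, i, rfl⟩ := el_surj X a
  rw [mem_preimage, map_el, mem_FSet, mem_FSet]
  rfl

theorem preimage_square (D : Square) (hf : Function.Injective D.f) (hft : Function.Injective D.ft)
    (hD : D.Bicommutative) : (D.map F).Bicommutative := by
  intro a
  obtain ⟨w, i, rfl⟩ := el_surj D.X a
  apply Subset.antisymm
  · rintro _ ⟨b, hb, rfl⟩
    have h1 : D.pX ≫ D.f = D.ft ≫ D.pY := D.comm.symm
    have h2 : F.map D.pY (F.map D.ft b) = F.map D.f (F.map D.pX b) := by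
      rw [← ConcreteCategory.comp_apply, ← F.map_comp, D.comm, F.map_comp,
        ConcreteCategory.comp_apply]
    have h3 : F.map D.pX b = el D.X w i := hb
    change F.map D.pY (F.map D.ft b) = F.map D.f (el D.X w i)
    rw [h2, h3]
  · intro b hb
    obtain ⟨v, k, rfl⟩ := el_surj D.Yt b
    have h1 : F.map D.pY (el D.Yt v k) = F.map D.f (el D.X w i) := hb
    rw [map_el, map_el, el_eq] at h1
    have key : ∀ (x : D.X) (y : D.Yt), D.pY y = D.f x → ∃ z, D.pX z = x ∧ D.ft z = y := by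
      intro x y hxy
      have : y ∈ D.pY ⁻¹' {D.f x} := hxy
      rw [← hD x] at this
      obtain ⟨z, hz, hz'⟩ := this
      exact ⟨z, hz, hz'⟩
    have e := h1.1
    obtain ⟨z1, p1, q1⟩ := key w.1.1 v.1.1 (congrArg (fun w : W D.Y => w.1.1) e)
    obtain ⟨z2, p2, q2⟩ := key w.1.2 v.1.2 (congrArg (fun w : W D.Y => w.1.2) e)
    obtain ⟨z3, p3, q3⟩ := key w.2.1 v.2.1 (congrArg (fun w : W D.Y => w.2.1) e)
    obtain ⟨z4, p4, q4⟩ := key w.2.2 v.2.2 (congrArg (fun w : W D.Y => w.2.2) e)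
    have hz1 : wmap D.pX ((z1, z2), (z3, z4)) = w := by
      rw [wmap_apply]
      change ((D.pX z1, D.pX z2), (D.pX z3, D.pX z4)) = w
      rw [p1, p2, p3, p4]
    have hz2 : wmap D.ft ((z1, z2), (z3, z4)) = v := by
      rw [wmap_apply]
      change ((D.ft z1, D.ft z2), (D.ft z3, D.ft z4)) = v
      rw [q1, q2, q3, q4]
    refine ⟨el D.Xt ((z1, z2), (z3, z4)) k, ?_, ?_⟩
    · change F.map D.pX (el D.Xt ((z1, z2), (z3, z4)) k) = el D.X w i
      rw [map_el, hz1, el_eq]
      refine ⟨rfl, h1.2.imp id ?_⟩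
      intro h
      rw [e] at h
      exact mem_of_wmap_mem hf h
    · change F.map D.ft (el D.Xt ((z1, z2), (z3, z4)) k) = el D.Yt v k
      rw [map_el, hz2]

theorem empty (X : CompHaus.{0}) (hX : IsEmpty X) : IsEmpty (F.obj X) := by
  refine ⟨fun a => ?_⟩
  obtain ⟨w, i, rfl⟩ := el_surj X a
  exact hX.false w.1.1

theorem point (X : CompHaus.{0}) (hX : Nonempty X ∧ Subsingleton X) :
    Nonempty (F.obj X) ∧ Subsingleton (F.obj X) := by
  obtain ⟨⟨x⟩, hs⟩ := hX
  refine ⟨⟨el X ((x, x), (x, x)) true⟩, ⟨fun a b => ?_⟩⟩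
  obtain ⟨w, i, rfl⟩ := el_surj X a
  obtain ⟨w', i', rfl⟩ := el_surj X b
  rw [el_eq]
  exact ⟨Subsingleton.elim _ _, Or.inr ⟨Subsingleton.elim _ _, Subsingleton.elim _ _⟩⟩

theorem finitary : Finitary F := by
  intro X hX
  have : Finite (W X × Bool) := inferInstance
  exact Finite.of_surjective (fun p : W X × Bool => el X p.1 p.2) fun a => by
    obtain ⟨w, i, rfl⟩ := el_surj X a
    exact ⟨(w, i), rfl⟩

theorem degree : DegreeLE F 4 := by
  intro X a
  obtain ⟨w, i, rfl⟩ := el_surj X a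
  refine ⟨CompHausLike.ofHom _ ⟨![w.1.1, w.1.2, w.2.1, w.2.2], continuous_of_discreteTopology⟩,
    el (CompHaus.of (Fin 4)) ((0, 1), (2, 3)) i, rfl⟩

theorem skeletal : SkeletalFunctor F := by
  intro X Y f hf hfo A hA
  by_contra hcon
  have hne : (interior (closure ((F.map f) ⁻¹' A))).Nonempty := by
    rw [nonempty_iff_ne_empty]
    exact hcon
  obtain ⟨a, ha⟩ := hne
  set U := interior (closure ((F.map f) ⁻¹' A)) with hU
  have hUA : ∀ a ∈ U, F.map f a ∈ closure A := by
    intro a ha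
    have h1 : closure ((F.map f) ⁻¹' A) ⊆ (F.map f) ⁻¹' (closure A) :=
      (continuous_hom (F.map f)).closure_preimage_subset A
    exact h1 (interior_subset ha)
  obtain ⟨w, i, rfl⟩ := el_surj X a
  -- the open image
  let O : Set (W X) := {w : W X | el X w i ∈ U}
  have hO : IsOpen O := isOpen_iff.1 isOpen_interior i
  have hV : IsOpen (wmap f '' O) := isOpenMap_wmap hfo _ hO
  have hsub : ∀ v ∈ wmap f '' O, el Y v i ∈ closure A := by
    rintro _ ⟨w, hw, rfl⟩
    rw [← map_el]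
    exact hUA _ hw
  -- a nonempty open set inside the closure of A
  have key : ∃ V : Set (F.obj Y), IsOpen V ∧ V.Nonempty ∧ V ⊆ closure A := by
    by_cases hc : wmap f '' O ⊆ Dg Y
    · refine ⟨(fun v => el Y v i) '' (wmap f '' O), ?_, ⟨_, _, ⟨w, ha, rfl⟩, rfl⟩, ?_⟩
      · rw [isOpen_iff]
        intro k
        convert hV using 1
        ext v
        constructor
        · rintro ⟨v', hv', he⟩
          rw [← (el_eq.1 he).1]
          exact hv'
        · intro hv
          exact ⟨v, hv, el_eq.2 ⟨rfl, Or.inr (hc hv)⟩⟩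
      · rintro _ ⟨v, hv, rfl⟩
        exact hsub v hv
    · obtain ⟨v0, hv0, hv0'⟩ := not_subset.1 hc
      refine ⟨(fun v => el Y v i) '' (wmap f '' O ∩ (Dg Y)ᶜ), ?_, ⟨_, _, ⟨hv0, hv0'⟩, rfl⟩, ?_⟩
      · rw [isOpen_iff]
        intro k
        by_cases hk : i = k
        · convert hV.inter (isClosed_Dg Y).isOpen_compl using 1
          ext v
          constructor
          · rintro ⟨v', hv', he⟩
            rw [← (el_eq.1 he).1]
            exact hv'
          · intro hv
            exact ⟨v, hv, el_eq.2 ⟨rfl, Or.inl hk⟩⟩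
        · convert isOpen_empty using 1
          ext v
          simp only [mem_ofPred_eq, mem_empty_iff_false, iff_false]
          rintro ⟨v', hv', he⟩
          exact (el_eq.1 he).2.elim hk hv'.2
      · rintro _ ⟨v, hv, rfl⟩
        exact hsub v hv.1
  obtain ⟨V, hV1, ⟨v, hv⟩, hV3⟩ := key
  have : v ∈ interior (closure A) := mem_interior.2 ⟨V, hV3, hV1, hv⟩
  rw [hA] at this
  exact this

end Pool.Agent.R818.Functors.X4
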