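import Pool.Agent.R818.Functors.X4
import Pool.Agent.R818.Functors.Weight

/-!
# The glued fourth power functor: weight, a finite square, non-openness
-/

set_option autoImplicit false

open CategoryTheory Topology Set Cardinal

namespace Pool.Agent.R818.Functors.X4

theorem weight_eq (X : CompHaus.{0}) (hX : Infinite X) : weight (F.obj X) = weight X := by
  apply le_antisymm
  · have h0 := aleph0_le_weight X
    have h2 : weight (X × X) ≤ weight X := weight_prod_le _ _ _ h0 le_rfl le_rfl
    have h4 : weight (W X) ≤ weight X := weight_prod_le _ _ _ h0 h2 h2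
    have h5 : weight (W X × Bool) ≤ weight X :=
      weight_prod_le _ _ _ h0 h4 ((weight_le_aleph0 Bool).trans h0)
    refine weight_le_of_surj (continuous_el X) ?_ _ h0 h5
    intro a
    obtain ⟨w, i, rfl⟩ := el_surj X a
    exact ⟨(w, i), rfl⟩
  · have hc : Continuous (fun x : X => el X ((x, x), (x, x)) true) := by
      apply (continuous_el X).comp (f := fun x : X => (((x, x), (x, x)), true))
      fun_prop
    have hi : Function.Injective (fun x : X => el X ((x, x), (x, x)) true) := by
      intro x y hxy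
      exact congrArg (fun w : W X => w.1.1) (el_eq.1 hxy).1
    exact weight_le_of_isInducing (hc.isClosedEmbedding hi).isInducing

theorem normal : IsNormal F where
  mono := mono
  epi := epi
  lim := lim
  inter := inter
  empty := empty
  point := point
  weight := weight_eq
  preimage := preimage
  preimage_square := preimage_square

/-- the finite square -/
def D : Square where
  Xt := CompHaus.of (Fin 4)
  Yt := CompHaus.of (Fin 3)
  X := CompHaus.of (Fin 3)
  Y := CompHaus.of (Fin 2)
  ft := CompHausLike.ofHom _ ⟨![0, 0, 1, 2], continuous_of_discreteTopology⟩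
  f := CompHausLike.ofHom _ ⟨![0, 0, 1], continuous_of_discreteTopology⟩
  pX := CompHausLike.ofHom _ ⟨![0, 1, 2, 2], continuous_of_discreteTopology⟩
  pY := CompHausLike.ofHom _ ⟨![0, 1, 1], continuous_of_discreteTopology⟩
  comm := by
    refine ConcreteCategory.hom_ext _ _ (fun i => ?_)
    change (![0, 1, 1] : Fin 3 → Fin 2) ((![0, 0, 1, 2] : Fin 4 → Fin 3) i) =
      (![0, 0, 1] : Fin 3 → Fin 2) ((![0, 1, 2, 2] : Fin 4 → Fin 3) i)
    revert i
    change ∀ i : Fin 4, _
    decide

theorem D_allFinite : D.AllFinite := by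
  refine ⟨?_, ?_, ?_, ?_⟩
  · change Finite (Fin 4); infer_instance
  · change Finite (Fin 3); infer_instance
  · change Finite (Fin 3); infer_instance
  · change Finite (Fin 2); infer_instance

theorem D_surjective : D.Surjective := by
  refine ⟨?_, ?_, ?_, ?_⟩
  · change Function.Surjective (![0, 0, 1, 2] : Fin 4 → Fin 3); decide
  · change Function.Surjective (![0, 0, 1] : Fin 3 → Fin 2); decide
  · change Function.Surjective (![0, 1, 2, 2] : Fin 4 → Fin 3); decide
  · change Function.Surjective (![0, 1, 1] : Fin 3 → Fin 2); decide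

theorem D_bicommutative : D.Bicommutative := by
  have key : ∀ (x : Fin 3) (y : Fin 3), (∃ z : Fin 4, (![0, 1, 2, 2] : Fin 4 → Fin 3) z = x ∧
      (![0, 0, 1, 2] : Fin 4 → Fin 3) z = y) ↔
      (![0, 1, 1] : Fin 3 → Fin 2) y = (![0, 0, 1] : Fin 3 → Fin 2) x := by decide
  intro x
  ext y
  exact key x y

theorem D_skeletal : D.Skeletal := by
  intro x U hU
  refine ⟨{D.f x}, ?_, ⟨_, rfl⟩, ?_, ?_⟩
  · change IsOpen ({D.f x} : Set (Fin 2))
    exact isOpen_discrete _
  · rintro _ rfl
    exact ⟨x, mem_of_mem_nhds hU, rfl⟩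
  · rw [← D_bicommutative x]
    apply image_mono
    intro z hz
    have : D.pX z = x := hz
    change D.pX z ∈ U
    rw [this]
    exact mem_of_mem_nhds hU

/-- the element of `F X` and the element of `F Yt` without a common lift -/
theorem no_lift : ¬ ∃ c : F.obj D.Xt, F.map D.pX c = el D.X (((0, 1), (2, 2)) : W (Fin 3)) true ∧
    F.map D.ft c = el D.Yt (((0, 0), (1, 2)) : W (Fin 3)) false := by
  rintro ⟨c, h1, h2⟩
  obtain ⟨w, i, rfl⟩ := el_surj _ c
  rw [map_el, el_eq] at h1 h2
  have hi : i = true := by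
    refine h1.2.resolve_right ?_
    rw [h1.1]
    intro h
    exact absurd (show (0 : Fin 3) = 1 from h.1) (by decide)
  have hi' : i = false := by
    refine h2.2.resolve_right ?_
    rw [h2.1]
    intro h
    exact absurd (show (1 : Fin 3) = 2 from h.2) (by decide)
  rw [hi] at hi'
  exact Bool.noConfusion hi'

theorem overlap : F.map D.pY (el D.Yt (((0, 0), (1, 2)) : W (Fin 3)) false) =
    F.map D.f (el D.X (((0, 1), (2, 2)) : W (Fin 3)) true) := by
  rw [map_el, map_el, el_eq]
  refine ⟨rfl, Or.inr ?_⟩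
  exact ⟨rfl, rfl⟩

theorem not_finitelyBicommutative : ¬ FinitelyBicommutative F := by
  intro h
  have h1 := h D D_allFinite D_surjective D_bicommutative
    (el D.X (((0, 1), (2, 2)) : W (Fin 3)) true)
  have h2 : el D.Yt (((0, 0), (1, 2)) : W (Fin 3)) false ∈
      (D.map F).pY ⁻¹' {(D.map F).f (el D.X (((0, 1), (2, 2)) : W (Fin 3)) true)} := overlap
  rw [← h1] at h2
  obtain ⟨c, hc, hc'⟩ := h2
  exact no_lift ⟨c, hc, hc'⟩

theorem singleton_nhds (X : Type) [TopologicalSpace X] [T2Space X] [Finite X] (x : X) :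
    ({x} : Set X) ∈ 𝓝 x := (isOpen_discrete _).mem_nhds rfl

theorem not_finitelySquareSkeletal : ¬ FinitelySquareSkeletal F := by
  intro h
  have h0 := h D D_allFinite D_surjective D_skeletal
    (el D.X (((0, 1), (2, 2)) : W (Fin 3)) true)
  have hX : Finite (F.obj D.X) := finitary _ (by change Finite (Fin 3); infer_instance)
  have hnh := @singleton_nhds (F.obj D.X) _ (F.obj D.X).is_hausdorff hX
    (el D.X (((0, 1), (2, 2)) : W (Fin 3)) true)
  obtain ⟨V, hV, ⟨v, hv⟩, hVf, hVp⟩ := h0 _ hnh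
  obtain ⟨a, rfl, ha⟩ := hVf hv
  have h1 : el D.Yt (((0, 0), (1, 2)) : W (Fin 3)) false ∈ (D.map F).pY ⁻¹' V := by
    change F.map D.pY (el D.Yt (((0, 0), (1, 2)) : W (Fin 3)) false) ∈ V
    rw [overlap]
    rw [← ha] at hv
    exact hv
  obtain ⟨c, hc, hc'⟩ := hVp h1
  exact no_lift ⟨c, hc, hc'⟩

theorem not_squareSkeletal : ¬ SquareSkeletal F := fun h =>
  not_finitelySquareSkeletal fun D _ h2 h3 => h D h2 h3

theorem not_open : ¬ OpenFunctor F := by
  intro h
  let X : CompHaus.{0} := CompHaus.of (Bool ⊕ OnePoint ℕ)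
  let Y : CompHaus.{0} := CompHaus.of (Unit ⊕ OnePoint ℕ)
  let f : X ⟶ Y := CompHausLike.ofHom _ ⟨Sum.map (fun _ => ()) id, by fun_prop⟩
  have hf : Function.Surjective f := by
    rintro (⟨⟩ | y)
    · exact ⟨Sum.inl true, rfl⟩
    · exact ⟨Sum.inr y, rfl⟩
  have hfo : IsOpenMap f := by
    change IsOpenMap (Sum.map (fun _ : Bool => ()) (id : OnePoint ℕ → OnePoint ℕ))
    apply IsOpenMap.sumMap
    · intro s _
      exact isOpen_discrete _
    · exact IsOpenMap.id
  have hF := h X Y f hf hfo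
  let U : Set (F.obj X) := {a | ∃ w, w ∉ Dg X ∧ a = el X w true}
  have hU : IsOpen U := by
    rw [isOpen_iff]
    intro i
    cases i
    · convert isOpen_empty using 1
      ext w
      simp only [mem_ofPred_eq, mem_empty_iff_false, iff_false]
      rintro ⟨w', hw', he⟩
      rcases (el_eq.1 he).2 with h1 | h1
      · exact Bool.noConfusion h1
      · rw [(el_eq.1 he).1] at h1
        exact hw' h1
    · convert (isClosed_Dg X).isOpen_compl using 1
      ext w
      constructor
      · rintro ⟨w', hw', he⟩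
        rw [(el_eq.1 he).1]
        exact hw'
      · intro hw
        exact ⟨w, hw, rfl⟩
  have hopen := isOpen_iff.1 (hF U hU) false
  let g : OnePoint ℕ → W Y := fun t => ((Sum.inl (), Sum.inl ()), (Sum.inr OnePoint.infty, Sum.inr t))
  have hg : Continuous g := by
    change Continuous (fun t : OnePoint ℕ => (((Sum.inl (), Sum.inl ()),
      (Sum.inr OnePoint.infty, Sum.inr t)) : W (Unit ⊕ OnePoint ℕ)))
    fun_prop
  have hO := hopen.preimage hg
  have hinf : OnePoint.infty ∈ g ⁻¹' {w : W Y | el Y w false ∈ F.map f '' U} := by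
    refine ⟨el X ((Sum.inl false, Sum.inl true), (Sum.inr OnePoint.infty, Sum.inr OnePoint.infty))
      true, ⟨_, ?_, rfl⟩, ?_⟩
    · intro h1
      have h2 : (Sum.inl false : Bool ⊕ OnePoint ℕ) = Sum.inl true := h1.1
      exact absurd (Sum.inl.inj h2) (by decide)
    · rw [map_el, el_eq]
      exact ⟨rfl, Or.inr ⟨rfl, rfl⟩⟩
  obtain ⟨n, hn⟩ := OnePoint.denseRange_coe.exists_mem_open hO ⟨_, hinf⟩
  obtain ⟨a, ⟨w, hw, rfl⟩, ha⟩ := hn
  rw [map_el, el_eq] at ha
  rcases ha.2 with h1 | h1
  · exact Bool.noConfusion h1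
  · rw [ha.1] at h1
    have h2 : (Sum.inr OnePoint.infty : Unit ⊕ OnePoint ℕ) = Sum.inr _ := h1.2
    exact OnePoint.infty_ne_coe _ (Sum.inr.inj h2)

theorem not_degree_three : ¬ DegreeLE F 3 := by
  intro h
  obtain ⟨ξ, b, hb⟩ := h (CompHaus.of (Fin 4)) (el (CompHaus.of (Fin 4)) ((0, 1), (2, 3)) true)
  obtain ⟨w, i, rfl⟩ := el_surj _ b
  rw [map_el, el_eq] at hb
  have h0 := hb.1
  have hs : Function.Surjective (fun x : Fin 3 => (ξ x : Fin 4)) := by
    intro y
    have e0 : (ξ w.1.1 : Fin 4) = 0 := congrArg (fun w : W (Fin 4) => w.1.1) h0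
    have e1 : (ξ w.1.2 : Fin 4) = 1 := congrArg (fun w : W (Fin 4) => w.1.2) h0
    have e2 : (ξ w.2.1 : Fin 4) = 2 := congrArg (fun w : W (Fin 4) => w.2.1) h0
    have e3 : (ξ w.2.2 : Fin 4) = 3 := congrArg (fun w : W (Fin 4) => w.2.2) h0
    fin_cases y
    · exact ⟨w.1.1, e0⟩
    · exact ⟨w.1.2, e1⟩
    · exact ⟨w.2.1, e2⟩
    · exact ⟨w.2.2, e3⟩
  have := Fintype.card_le_of_surjective _ hs
  simp at this

end Pool.Agent.R818.Functors.X4
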